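import Pool.Agent.K1H41.NF.Stm

/-!
# `n`-central polynomials on reducible tuples: definitions and statements of the parts
-/

set_option autoImplicit false

namespace Pool.Agent.K1H41.RD

open Matrix

universe u v

section Defs

variable {K : Type u} [Field K] {σ : Type v}

/-- the value of `f` at a tuple of matrices with rows and columns indexed by `ι` -/
noncomputable def evm {ι : Type} [Fintype ι] [DecidableEq ι] (f : FreeAlgebra K σ)
    (W : σ → Matrix ι ι K) : Matrix ι ι K := FreeAlgebra.lift K W f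

/-- tuples of block matrices -/
def blk {k l : ℕ} (X : σ → Matrix (Fin k) (Fin k) K) (B : σ → Matrix (Fin k) (Fin l) K)
    (C : σ → Matrix (Fin l) (Fin k) K) (Z : σ → Matrix (Fin l) (Fin l) K) :
    σ → Matrix (Fin k ⊕ Fin l) (Fin k ⊕ Fin l) K :=
  fun i => Matrix.fromBlocks (X i) (B i) (C i) (Z i)

/-- the upper right block of the value of `f` at a block triangular tuple -/
noncomputable def dd {k l : ℕ} (f : FreeAlgebra K σ) (X : σ → Matrix (Fin k) (Fin k) K)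
    (Z : σ → Matrix (Fin l) (Fin l) K) (B : σ → Matrix (Fin k) (Fin l) K) :
    Matrix (Fin k) (Fin l) K :=
  (evm f (blk X B (fun _ => 0) Z)).toBlocks₁₂

/-- a matrix as a vector -/
def vv {k l : ℕ} (B : Matrix (Fin k) (Fin l) K) : Fin k × Fin l → K := fun a => B a.1 a.2

/-- the value of a polynomial in two sets of variables at `X_i ⊗ 1`, `1 ⊗ Y_j` -/
noncomputable def evT {σ' : Type v} {k l : ℕ} (p : FreeAlgebra K (σ ⊕ σ'))
    (X : σ → Matrix (Fin k) (Fin k) K) (Y : σ' → Matrix (Fin l) (Fin l) K) :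
    Matrix (Fin k × Fin l) (Fin k × Fin l) K :=
  FreeAlgebra.lift K (Sum.elim
    (fun i => Matrix.kroneckerMap (· * ·) (X i) (1 : Matrix (Fin l) (Fin l) K))
    (fun j => Matrix.kroneckerMap (· * ·) (1 : Matrix (Fin k) (Fin k) K) (Y j))) p

end Defs

/-- DOM. the algebra generated by `X_i ⊗ 1`, `1 ⊗ Y_j` with generic `X_i`, `Y_j` of coprime
sizes is a domain -/
def S_DOM : Prop := ∀ (K : Type u) [Field K] [Infinite K] (σ : Type v) (k l : ℕ),
  0 < k → 0 < l → Nat.Coprime k l → ∀ p q : FreeAlgebra K (σ ⊕ σ),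
  (∀ (X : σ → Matrix (Fin k) (Fin k) K) (Y : σ → Matrix (Fin l) (Fin l) K),
    evT p X Y * evT q X Y = 0) →
  (∀ (X : σ → Matrix (Fin k) (Fin k) K) (Y : σ → Matrix (Fin l) (Fin l) K), evT p X Y = 0) ∨
  (∀ (X : σ → Matrix (Fin k) (Fin k) K) (Y : σ → Matrix (Fin l) (Fin l) K), evT q X Y = 0)

/-- NIL. the first order condition near a direct sum -/
def S_NIL : Prop := ∀ (K : Type u) [Field K] [Infinite K] (σ : Type v) (k l ν : ℕ),
  0 < k → 0 < l → Odd ν → ∀ f : FreeAlgebra K σ,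
  (∀ W : σ → Matrix (Fin k ⊕ Fin l) (Fin k ⊕ Fin l) K, ∃ c : K,
    evm f W ^ ν = Matrix.scalar (Fin k ⊕ Fin l) c) →
  (∀ X : σ → Matrix (Fin k) (Fin k) K, evm f X = 0) →
  (∀ Z : σ → Matrix (Fin l) (Fin l) K, evm f Z = 0) →
  ∀ (X : σ → Matrix (Fin k) (Fin k) K) (Z : σ → Matrix (Fin l) (Fin l) K)
    (B : σ → Matrix (Fin k) (Fin l) K) (C : σ → Matrix (Fin l) (Fin k) K),
    (dd f X Z B * dd f Z X C).trace = 0

/-- VEC. the corner as a linear function of `B` -/
def S_VEC : Prop := ∀ (K : Type u) [Field K] (σ : Type v) (f : FreeAlgebra K σ),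
  ∃ p q : σ →₀ FreeAlgebra K (σ ⊕ σ), ∀ (k l : ℕ) (X : σ → Matrix (Fin k) (Fin k) K)
    (Z : σ → Matrix (Fin l) (Fin l) K),
    (∀ B : σ → Matrix (Fin k) (Fin l) K,
      vv (dd f X Z B) = p.sum fun i r => evT r X (fun j => (Z j)ᵀ) *ᵥ vv (B i)) ∧
    (∀ (A : Matrix (Fin k) (Fin l) K) (C : σ → Matrix (Fin l) (Fin k) K),
      (A * dd f Z X C).trace =
        q.sum fun j r => (evT r X (fun j => (Z j)ᵀ) *ᵥ vv A) ⬝ᵥ vv (C j)ᵀ)

/-- INV. a tuple with a common invariant subspace of dimension `k` is block triangular in a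
suitable basis -/
def S_INV : Prop := ∀ (K : Type u) [Field K] (σ : Type v) (n k l : ℕ), k + l = n →
  ∀ W : σ → Matrix (Fin n) (Fin n) K, ∀ V : Submodule K (Fin n → K),
  Module.finrank K V = k → (∀ i, ∀ v ∈ V, (W i).mulVec v ∈ V) →
  ∃ (Φ : Matrix (Fin k ⊕ Fin l) (Fin k ⊕ Fin l) K ≃ₐ[K] Matrix (Fin n) (Fin n) K)
    (X : σ → Matrix (Fin k) (Fin k) K) (B : σ → Matrix (Fin k) (Fin l) K)
    (Z : σ → Matrix (Fin l) (Fin l) K), ∀ i, W i = Φ (blk X B (fun _ => 0) Z i)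

/-- SML. If `f ^ ν` is scalar valued on `n × n` matrices and `f` is zero at the zero tuple, then
`f` vanishes on smaller matrices -/
def S_SML : Prop := ∀ (K : Type u) [Field K] [Infinite K] (σ : Type v) (n m ν : ℕ), m < n → 0 < ν →
  ∀ f : FreeAlgebra K σ,
  (∀ X : σ → Matrix (Fin n) (Fin n) K, ∃ c : K,
    FreeAlgebra.lift K X f ^ ν = Matrix.scalar (Fin n) c) →
  FreeAlgebra.lift K (fun _ => (0 : Matrix (Fin n) (Fin n) K)) f = 0 →
  ∀ X : σ → Matrix (Fin m) (Fin m) K, FreeAlgebra.lift K X f = 0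

/-- CON. the constant term of an `n`-central polynomial can be removed -/
def S_CON : Prop := ∀ (K : Type u) [Field K] [Infinite K] (σ : Type v) (n : ℕ), n.Prime →
  ∀ f : FreeAlgebra K σ, NF.IsNuCentral n n f → ∃ c : K, ((n : K) ≠ 0 → c = 0) ∧
    FreeAlgebra.lift K (fun _ => (0 : Matrix (Fin n) (Fin n) K)) f = Matrix.scalar (Fin n) c ∧
    ∀ X : σ → Matrix (Fin n) (Fin n) K, ∃ d : K,
      FreeAlgebra.lift K X (f - algebraMap K (FreeAlgebra K σ) c) ^ n = Matrix.scalar (Fin n) d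

/-- DEG. a polynomial vanishing on all block triangular tuples with blocks `1, l` is a combination
of words of length at least `2 (l + 1)` -/
def S_DEG : Prop := ∀ (K : Type u) [Field K] [Infinite K] (σ : Type v) (l : ℕ),
  ∀ f : FreeAlgebra K σ,
  (∀ (X : σ → Matrix (Fin 1) (Fin 1) K) (B : σ → Matrix (Fin 1) (Fin l) K)
    (Z : σ → Matrix (Fin l) (Fin l) K), evm f (blk X B (fun _ => 0) Z) = 0) →
  f ∈ Submodule.span K {w : FreeAlgebra K σ | ∃ s : List σ, 2 * (l + 1) ≤ s.length ∧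
    w = (s.map (FreeAlgebra.ι K)).prod}

/-- DEG'. the same for blocks `l, 1` -/
def S_DEG' : Prop := ∀ (K : Type u) [Field K] [Infinite K] (σ : Type v) (l : ℕ),
  ∀ f : FreeAlgebra K σ,
  (∀ (X : σ → Matrix (Fin l) (Fin l) K) (B : σ → Matrix (Fin l) (Fin 1) K)
    (Z : σ → Matrix (Fin 1) (Fin 1) K), evm f (blk X B (fun _ => 0) Z) = 0) →
  f ∈ Submodule.span K {w : FreeAlgebra K σ | ∃ s : List σ, 2 * (l + 1) ≤ s.length ∧
    w = (s.map (FreeAlgebra.ι K)).prod}

end Pool.Agent.K1H41.RD
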