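import Pool.Agent.K1H41.RD.Stm

/-!
# Project RD, piece DEG: a polynomial vanishing on block triangular tuples with blocks `1, l` is a
combination of words of length at least `2 (l + 1)`
-/

set_option autoImplicit false

namespace Pool.Agent.K1H41.RD

open Matrix

universe u v

namespace DEG

variable {K : Type u} [Field K] {σ : Type v}

/-- words of length at least `m` -/
abbrev SP (K : Type u) [Field K] (σ : Type v) (m : ℕ) : Submodule K (FreeAlgebra K σ) :=
  Submodule.span K {w : FreeAlgebra K σ | ∃ s : List σ, m ≤ s.length ∧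
    w = (s.map (FreeAlgebra.ι K)).prod}

theorem SP_zero (f : FreeAlgebra K σ) : f ∈ SP K σ 0 := by
  have h1 : f ∈ Algebra.adjoin K (Set.range (FreeAlgebra.ι K : σ → FreeAlgebra K σ)) := by
    rw [FreeAlgebra.adjoin_range_ι]; trivial
  have h2 : f ∈ Subalgebra.toSubmodule
      (Algebra.adjoin K (Set.range (FreeAlgebra.ι K : σ → FreeAlgebra K σ))) := h1
  rw [Algebra.adjoin_eq_span] at h2
  refine Submodule.span_mono ?_ h2
  intro w hw
  have hw' : w ∈ Submonoid.closure (Set.range (FreeAlgebra.ι K : σ → FreeAlgebra K σ)) := hw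
  clear hw h2 h1
  induction hw' using Submonoid.closure_induction with
  | mem x hx =>
    obtain ⟨i, rfl⟩ := hx
    exact ⟨[i], by simp, by simp⟩
  | one => exact ⟨[], by simp, by simp⟩
  | mul x y _ _ hx hy =>
    obtain ⟨s, _, rfl⟩ := hx
    obtain ⟨s', _, rfl⟩ := hy
    exact ⟨s ++ s', by simp, by simp⟩

theorem SP_mul (i : σ) (m : ℕ) (h : FreeAlgebra K σ) (hh : h ∈ SP K σ m) :
    FreeAlgebra.ι K i * h ∈ SP K σ (m + 1) := by
  induction hh using Submodule.span_induction with
  | mem x hx =>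
    obtain ⟨s, hs, rfl⟩ := hx
    exact Submodule.subset_span ⟨i :: s, by simpa using hs, by simp⟩
  | zero => simp
  | add x y _ _ hx hy => rw [mul_add]; exact Submodule.add_mem _ hx hy
  | smul a x _ hx => rw [mul_smul_comm]; exact Submodule.smul_mem _ a hx

/-- sums over the first letter -/
noncomputable def S1 (g : σ →₀ FreeAlgebra K σ) : FreeAlgebra K σ :=
  g.sum fun i h => FreeAlgebra.ι K i * h

theorem S1_add (g g' : σ →₀ FreeAlgebra K σ) : S1 (g + g') = S1 g + S1 g' := by
  classical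
  exact Finsupp.sum_add_index' (fun _ => mul_zero _) (fun _ _ _ => mul_add _ _ _)

theorem S1_smul (c : K) (g : σ →₀ FreeAlgebra K σ) : S1 (c • g) = c • S1 g := by
  unfold S1
  rw [Finsupp.sum_smul_index' (fun _ => mul_zero _), Finsupp.smul_sum]
  simp only [mul_smul_comm]

theorem S1_mul (g : σ →₀ FreeAlgebra K σ) (b : FreeAlgebra K σ) :
    S1 (g.mapRange (fun h => h * b) (zero_mul b)) = S1 g * b := by
  unfold S1
  rw [Finsupp.sum_mapRange_index (fun _ => mul_zero _), Finsupp.sum_mul]
  simp only [mul_assoc]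

/-- decomposition by the first letter -/
theorem decomp (f : FreeAlgebra K σ) : ∃ (c : K) (g : σ →₀ FreeAlgebra K σ),
    f = algebraMap K _ c + S1 g := by
  classical
  induction f using FreeAlgebra.induction with
  | grade0 r => exact ⟨r, 0, by simp [S1]⟩
  | grade1 x => exact ⟨0, Finsupp.single x 1, by simp [S1]⟩
  | mul a b ha hb =>
    obtain ⟨c, g, hg⟩ := ha
    obtain ⟨c', g', hg'⟩ := hb
    refine ⟨c * c', c • g' + g.mapRange (fun h => h * b) (zero_mul b), ?_⟩
    rw [S1_add, S1_smul, S1_mul, hg, add_mul, ← add_assoc]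
    congr 1
    conv_lhs => rw [hg']
    rw [mul_add, map_mul, Algebra.smul_def]
  | add a b ha hb =>
    obtain ⟨c, g, hg⟩ := ha
    obtain ⟨c', g', hg'⟩ := hb
    refine ⟨c + c', g + g', ?_⟩
    rw [S1_add, hg, hg', map_add]
    abel

theorem evm_S1 {ι : Type} [Fintype ι] [DecidableEq ι] (g : σ →₀ FreeAlgebra K σ)
    (W : σ → Matrix ι ι K) : evm (S1 g) W = g.sum fun k h => W k * evm h W := by
  unfold evm S1
  rw [map_finsuppSum]
  simp only [map_mul, FreeAlgebra.lift_ι_apply]

/-- the shape of the values at block triangular tuples -/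
theorem tri {l : ℕ} (f : FreeAlgebra K σ) (X : σ → Matrix (Fin 1) (Fin 1) K)
    (B : σ → Matrix (Fin 1) (Fin l) K) (Z : σ → Matrix (Fin l) (Fin l) K) :
    ∃ D, evm f (blk X B (fun _ => 0) Z) = Matrix.fromBlocks (FreeAlgebra.lift K X f) D 0
      (FreeAlgebra.lift K Z f) := by
  induction f using FreeAlgebra.induction with
  | grade0 r =>
    refine ⟨0, ?_⟩
    unfold evm
    rw [AlgHom.commutes, AlgHom.commutes, AlgHom.commutes, Algebra.algebraMap_eq_smul_one,
      Algebra.algebraMap_eq_smul_one, Algebra.algebraMap_eq_smul_one, ← Matrix.fromBlocks_one,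
      Matrix.fromBlocks_smul, smul_zero, smul_zero]
  | grade1 x =>
    refine ⟨B x, ?_⟩
    unfold evm blk
    rw [FreeAlgebra.lift_ι_apply, FreeAlgebra.lift_ι_apply, FreeAlgebra.lift_ι_apply]
  | mul a b ha hb =>
    obtain ⟨D, hD⟩ := ha
    obtain ⟨D', hD'⟩ := hb
    unfold evm at hD hD' ⊢
    refine ⟨FreeAlgebra.lift K X a * D' + D * FreeAlgebra.lift K Z b, ?_⟩
    rw [map_mul, hD, hD', Matrix.fromBlocks_multiply, map_mul, map_mul]
    simp only [Matrix.mul_zero, Matrix.zero_mul, add_zero, zero_add]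
  | add a b ha hb =>
    obtain ⟨D, hD⟩ := ha
    obtain ⟨D', hD'⟩ := hb
    unfold evm at hD hD' ⊢
    refine ⟨D + D', ?_⟩
    rw [map_add, hD, hD', Matrix.fromBlocks_add, map_add, map_add, add_zero]

/-- removing the point `t = 0` -/
theorem poly_lemma [Infinite K] {ι : Type} [Fintype ι] [DecidableEq ι] (g : FreeAlgebra K σ)
    (W0 W1 : σ → Matrix ι ι K) (a b : ι)
    (h : ∀ t : K, t ≠ 0 → (evm g (fun k => W0 k + t • W1 k)) a b = 0) :
    (evm g W0) a b = 0 := by
  classical
  set V : σ → Matrix ι ι (Polynomial K) := fun k =>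
    (W0 k).map Polynomial.C + (Polynomial.X : Polynomial K) • (W1 k).map Polynomial.C with hV
  have hP : ∀ t : K, (FreeAlgebra.lift K V g).map (Polynomial.aeval t) =
      evm g (fun k => W0 k + t • W1 k) := by
    intro t
    have h1 : (AlgHom.mapMatrix (Polynomial.aeval t : Polynomial K →ₐ[K] K)).comp
        (FreeAlgebra.lift K V) = FreeAlgebra.lift K (fun k => W0 k + t • W1 k) := by
      apply FreeAlgebra.hom_ext
      funext k
      simp only [Function.comp_apply, AlgHom.comp_apply, FreeAlgebra.lift_ι_apply]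
      ext i j
      simp [hV]
      exact mul_comm _ _
    have h2 := DFunLike.congr_fun h1 g
    unfold evm
    rw [← h2]
    rfl
  set p : Polynomial K := (FreeAlgebra.lift K V g) a b with hp
  have hev : ∀ t : K, p.eval t = (evm g (fun k => W0 k + t • W1 k)) a b := by
    intro t
    rw [← hP t, Matrix.map_apply, Polynomial.coe_aeval_eq_eval]
  have hXp : Polynomial.X * p = 0 := by
    apply Polynomial.funext
    intro t
    rw [Polynomial.eval_mul, Polynomial.eval_X, Polynomial.eval_zero]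
    by_cases ht : t = 0
    · rw [ht, zero_mul]
    · rw [hev, h t ht, mul_zero]
  have hp0 : p = 0 := by
    rcases mul_eq_zero.mp hXp with h0 | h0
    · exact absurd h0 Polynomial.X_ne_zero
    · exact h0
  have h0 := hev 0
  rw [hp0, Polynomial.eval_zero] at h0
  have h3 : (fun k => W0 k + (0 : K) • W1 k) = W0 := by
    funext k; simp
  rw [h3] at h0
  exact h0.symm

open Classical in
/-- the special tuples -/
noncomputable def tup {l : ℕ} (i j : σ) (t : K) (β : Fin l → K)
    (Z : σ → Matrix (Fin l) (Fin l) K) : σ → Matrix (Fin 1 ⊕ Fin l) (Fin 1 ⊕ Fin l) K :=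
  blk (fun k => if k = i then Matrix.of (fun _ _ => t) else 0)
    (fun k => if k = j then Matrix.of (fun _ a => β a) else 0) (fun _ => 0) Z

theorem row {l : ℕ} (c : K) (g : σ →₀ FreeAlgebra K σ) (i j : σ) (t : K) (β : Fin l → K)
    (Z : σ → Matrix (Fin l) (Fin l) K) (b : Fin 1 ⊕ Fin l) :
    (evm (algebraMap K _ c + S1 g) (tup i j t β Z)) (Sum.inl 0) b =
      c * (1 : Matrix (Fin 1 ⊕ Fin l) (Fin 1 ⊕ Fin l) K) (Sum.inl 0) b +
      (t * (evm (g i) (tup i j t β Z)) (Sum.inl 0) b +
      ∑ a, β a * (evm (g j) (tup i j t β Z)) (Sum.inr a) b) := by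
  classical
  have h1 : evm (algebraMap K _ c + S1 g) (tup i j t β Z) =
      c • (1 : Matrix (Fin 1 ⊕ Fin l) (Fin 1 ⊕ Fin l) K) + evm (S1 g) (tup i j t β Z) := by
    unfold evm
    rw [map_add, AlgHom.commutes, Algebra.algebraMap_eq_smul_one]
  rw [h1, Matrix.add_apply, Matrix.smul_apply, smul_eq_mul, evm_S1]
  congr 1
  have h2 : (g.sum fun k h => tup i j t β Z k * evm h (tup i j t β Z)) (Sum.inl 0) b =
      g.sum fun k h => ((tup i j t β Z k * evm h (tup i j t β Z)) (Sum.inl 0) b) := by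
    unfold Finsupp.sum
    rw [Matrix.sum_apply]
  rw [h2]
  have h3 : ∀ k h, (tup i j t β Z k * evm h (tup i j t β Z)) (Sum.inl 0) b =
      (if k = i then t * (evm h (tup i j t β Z)) (Sum.inl 0) b else 0) +
      (if k = j then ∑ a, β a * (evm h (tup i j t β Z)) (Sum.inr a) b else 0) := by
    intro k h
    rw [Matrix.mul_apply, Fintype.sum_sum_type]
    congr 1
    · rw [Fin.sum_univ_one]
      by_cases hk : k = i
      · simp [tup, blk, hk]
      · simp [tup, blk, hk]
    · by_cases hk : k = j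
      · simp [tup, blk, hk]
      · simp [tup, blk, hk]
  simp only [h3]
  rw [Finsupp.sum_add]
  congr 1
  · rw [Finsupp.sum_eq_single i]
    · simp
    · intro k _ hk
      simp [hk]
    · intro _
      simp [evm]
  · rw [Finsupp.sum_eq_single j]
    · simp
    · intro k _ hk
      simp [hk]
    · intro _
      simp [evm]

/-- the shape at the special tuples -/
theorem tup_inr_inl {l : ℕ} (f : FreeAlgebra K σ) (i j : σ) (t : K) (β : Fin l → K)
    (Z : σ → Matrix (Fin l) (Fin l) K) (a : Fin l) (b : Fin 1) :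
    (evm f (tup i j t β Z)) (Sum.inr a) (Sum.inl b) = 0 := by
  classical
  unfold tup
  obtain ⟨D, hD⟩ := tri f (fun k => if k = i then Matrix.of (fun _ _ => t) else 0)
    (fun k => if k = j then Matrix.of (fun _ a => β a) else 0) Z
  rw [hD]
  simp

theorem tup_inr_inr {l : ℕ} (f : FreeAlgebra K σ) (i j : σ) (t : K) (β : Fin l → K)
    (Z : σ → Matrix (Fin l) (Fin l) K) (a b : Fin l) :
    (evm f (tup i j t β Z)) (Sum.inr a) (Sum.inr b) = (FreeAlgebra.lift K Z f) a b := by
  classical
  unfold tup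
  obtain ⟨D, hD⟩ := tri f (fun k => if k = i then Matrix.of (fun _ _ => t) else 0)
    (fun k => if k = j then Matrix.of (fun _ a => β a) else 0) Z
  rw [hD]
  simp

theorem sum_single_row {l : ℕ} (M : Matrix (Fin l) (Fin l) K) (a b : Fin l) :
    ∑ a', (if a' = a then (1 : K) else 0) * M a' b = M a b := by
  simp

/-- two steps of the decomposition -/
theorem two_step [Infinite K] {l : ℕ} (f : FreeAlgebra K σ)
    (hf : ∀ (X : σ → Matrix (Fin 1) (Fin 1) K) (B : σ → Matrix (Fin 1) (Fin l) K)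
      (Z : σ → Matrix (Fin l) (Fin l) K), evm f (blk X B (fun _ => 0) Z) = 0) :
    ∃ g : σ →₀ FreeAlgebra K σ, f = S1 g ∧ ∀ i, ∃ h : σ →₀ FreeAlgebra K σ, g i = S1 h ∧
      ∀ j, ∀ Z : σ → Matrix (Fin l) (Fin l) K, FreeAlgebra.lift K Z (h j) = 0 := by
  classical
  obtain ⟨c, g, hg⟩ := decomp f
  have hf' : ∀ (i j : σ) (t : K) (β : Fin l → K) (Z : σ → Matrix (Fin l) (Fin l) K)
      (b : Fin 1 ⊕ Fin l), c * (1 : Matrix (Fin 1 ⊕ Fin l) (Fin 1 ⊕ Fin l) K) (Sum.inl 0) b +
      (t * (evm (g i) (tup i j t β Z)) (Sum.inl 0) b +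
      ∑ a, β a * (evm (g j) (tup i j t β Z)) (Sum.inr a) b) = 0 := by
    intro i j t β Z b
    rw [← row, ← hg]
    unfold tup
    rw [hf]
    rfl
  -- the constant term
  have hc : c = 0 := by
    have h0 := hf (fun _ => 0) (fun _ => 0) (fun _ => 0)
    have hz : (blk (fun _ => 0) (fun _ => 0) (fun _ => 0) (fun _ => 0) :
        σ → Matrix (Fin 1 ⊕ Fin l) (Fin 1 ⊕ Fin l) K) = fun _ => 0 := by
      funext k
      unfold blk
      exact Matrix.fromBlocks_zero
    rw [hz, hg] at h0
    have h1 : evm (algebraMap K _ c + S1 g) (fun _ => (0 : Matrix (Fin 1 ⊕ Fin l) (Fin 1 ⊕ Fin l) K))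
        = c • (1 : Matrix (Fin 1 ⊕ Fin l) (Fin 1 ⊕ Fin l) K) +
          evm (S1 g) (fun _ => (0 : Matrix (Fin 1 ⊕ Fin l) (Fin 1 ⊕ Fin l) K)) := by
      unfold evm
      rw [map_add, AlgHom.commutes, Algebra.algebraMap_eq_smul_one]
    rw [h1, evm_S1] at h0
    simp only [zero_mul, Finsupp.sum_fun_zero, add_zero] at h0
    have h2 := congrFun (congrFun h0 (Sum.inl 0)) (Sum.inl 0)
    simpa using h2
  subst hc
  -- the first letters
  have hg1 : ∀ (j : σ) (Z : σ → Matrix (Fin l) (Fin l) K), FreeAlgebra.lift K Z (g j) = 0 := by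
    intro j Z
    ext a b
    have h1 := hf' j j 0 (fun a' => if a' = a then 1 else 0) Z (Sum.inr b)
    simp only [tup_inr_inr, zero_mul, zero_add] at h1
    rw [sum_single_row] at h1
    exact h1
  refine ⟨g, by rw [hg, map_zero, zero_add], fun i => ?_⟩
  obtain ⟨c', h, hh⟩ := decomp (g i)
  have key : ∀ (j : σ) (β : Fin l → K) (Z : σ → Matrix (Fin l) (Fin l) K)
      (b : Fin 1 ⊕ Fin l), (evm (g i) (tup i j 0 β Z)) (Sum.inl 0) b = 0 := by
    intro j β Z b
    apply poly_lemma (g i) (tup i j 0 β Z) (tup i j 1 0 (fun _ => 0)) (Sum.inl 0) b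
    intro t ht
    have htup : (fun k => tup i j 0 β Z k + t • tup i j 1 0 (fun _ => 0) k) =
        tup i j t β Z := by
      funext k
      unfold tup blk
      rw [Matrix.fromBlocks_smul, Matrix.fromBlocks_add]
      congr 1
      · by_cases hk : k = i
        · ext x y; simp [hk]
        · simp [hk]
      · by_cases hk : k = j
        · ext x y; simp [hk]
        · simp [hk]
      · simp
      · simp
    rw [htup]
    have h1 := hf' i j t β Z b
    have h2 : ∀ a, (evm (g j) (tup i j t β Z)) (Sum.inr a) b = 0 := by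
      intro a
      rcases b with b | b
      · exact tup_inr_inl _ _ _ _ _ _ _ _
      · rw [tup_inr_inr, hg1]
        rfl
    simp only [h2, mul_zero, Finset.sum_const_zero, add_zero, zero_mul, zero_add] at h1
    exact (mul_eq_zero.mp h1).resolve_left ht
  have key2 : ∀ (j : σ) (β : Fin l → K) (Z : σ → Matrix (Fin l) (Fin l) K)
      (b : Fin 1 ⊕ Fin l), c' * (1 : Matrix (Fin 1 ⊕ Fin l) (Fin 1 ⊕ Fin l) K) (Sum.inl 0) b +
      ∑ a, β a * (evm (h j) (tup i j 0 β Z)) (Sum.inr a) b = 0 := by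
    intro j β Z b
    have h1 := key j β Z b
    rw [hh, row, zero_mul, zero_add] at h1
    exact h1
  have hc' : c' = 0 := by
    have h1 := key2 i 0 (fun _ => 0) (Sum.inl 0)
    simpa using h1
  subst hc'
  refine ⟨h, by rw [hh, map_zero, zero_add], fun j Z => ?_⟩
  ext a b
  have h1 := key2 j (fun a' => if a' = a then 1 else 0) Z (Sum.inr b)
  simp only [tup_inr_inr, zero_mul, zero_add] at h1
  rw [sum_single_row] at h1
  exact h1

/-- two letters more -/
theorem two_more [Infinite K] {l m : ℕ} (f : FreeAlgebra K σ)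
    (hQ : ∀ h : FreeAlgebra K σ, (∀ Z : σ → Matrix (Fin l) (Fin l) K,
      FreeAlgebra.lift K Z h = 0) → h ∈ SP K σ m)
    (hf : ∀ (X : σ → Matrix (Fin 1) (Fin 1) K) (B : σ → Matrix (Fin 1) (Fin l) K)
      (Z : σ → Matrix (Fin l) (Fin l) K), evm f (blk X B (fun _ => 0) Z) = 0) :
    f ∈ SP K σ (m + 2) := by
  obtain ⟨g, hg, hgi⟩ := two_step f hf
  rw [hg]
  unfold S1 Finsupp.sum
  refine Submodule.sum_mem _ fun i _ => SP_mul i (m + 1) _ ?_
  obtain ⟨h, hh, hj⟩ := hgi i
  rw [hh]
  unfold S1 Finsupp.sum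
  exact Submodule.sum_mem _ fun j _ => SP_mul j m _ (hQ _ (hj j))

theorem full [Infinite K] : ∀ (l : ℕ) (h : FreeAlgebra K σ),
    (∀ Z : σ → Matrix (Fin l) (Fin l) K, FreeAlgebra.lift K Z h = 0) → h ∈ SP K σ (2 * l) := by
  intro l
  induction l with
  | zero => intro h _; exact SP_zero h
  | succ l ih =>
    intro h hh
    refine two_more h ih ?_
    intro X B Z
    let e : Fin 1 ⊕ Fin l ≃ Fin (l + 1) := finSumFinEquiv.trans (finCongr (add_comm 1 l))
    let φ := Matrix.reindexAlgEquiv K K e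
    apply φ.injective
    have h1 : (φ : Matrix (Fin 1 ⊕ Fin l) (Fin 1 ⊕ Fin l) K →ₐ[K] _).comp
        (FreeAlgebra.lift K (blk X B (fun _ => 0) Z)) =
        FreeAlgebra.lift K (fun k => φ (blk X B (fun _ => 0) Z k)) := by
      apply FreeAlgebra.hom_ext
      funext k
      simp
    have h2 := DFunLike.congr_fun h1 h
    rw [hh] at h2
    rw [map_zero]
    exact h2

theorem star_word (s : List σ) : star ((s.map (FreeAlgebra.ι K)).prod) =
    (s.reverse.map (FreeAlgebra.ι K)).prod := by
  induction s with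
  | nil => simp
  | cons i s ih =>
    rw [List.map_cons, List.prod_cons, star_mul, ih, FreeAlgebra.star_ι, List.reverse_cons,
      List.map_append, List.prod_append]
    simp

theorem SP_star (m : ℕ) (h : FreeAlgebra K σ) (hh : h ∈ SP K σ m) : star h ∈ SP K σ m := by
  induction hh using Submodule.span_induction with
  | mem x hx =>
    obtain ⟨s, hs, rfl⟩ := hx
    exact Submodule.subset_span ⟨s.reverse, by simpa using hs, star_word s⟩
  | zero => simp
  | add x y _ _ hx hy => rw [star_add]; exact Submodule.add_mem _ hx hy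
  | smul a x _ hx =>
    rw [Algebra.smul_def, star_mul, FreeAlgebra.star_algebraMap, ← Algebra.commutes,
      ← Algebra.smul_def]
    exact Submodule.smul_mem _ a hx

/-- transposition and reversal -/
theorem star_val {m n : Type} [Fintype m] [DecidableEq m] [Fintype n] [DecidableEq n]
    (e : m ≃ n) (W : σ → Matrix m m K) (g : FreeAlgebra K σ) :
    FreeAlgebra.lift K (fun k => (Matrix.reindexAlgEquiv K K e (W k))ᵀ) (star g) =
      (Matrix.reindexAlgEquiv K K e (FreeAlgebra.lift K W g))ᵀ := by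
  induction g using FreeAlgebra.induction with
  | grade0 r =>
    rw [FreeAlgebra.star_algebraMap, AlgHom.commutes, AlgHom.commutes, AlgEquiv.commutes,
      Algebra.algebraMap_eq_smul_one, Matrix.transpose_smul, Matrix.transpose_one]
  | grade1 x => rw [FreeAlgebra.star_ι, FreeAlgebra.lift_ι_apply, FreeAlgebra.lift_ι_apply]
  | mul a b ha hb => rw [star_mul, map_mul, map_mul, ha, hb, map_mul, Matrix.transpose_mul]
  | add a b ha hb => rw [star_add, map_add, map_add, ha, hb, map_add, Matrix.transpose_add]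

end DEG

theorem t_DEG : S_DEG.{u, v} := by
  intro K _ _ σ l f hf
  have := DEG.two_more f (DEG.full l) hf
  exact this

theorem t_DEG' : S_DEG'.{u, v} := by
  intro K _ _ σ l f hf
  have h1 : star f ∈ DEG.SP K σ (2 * (l + 1)) := by
    refine t_DEG K σ l (star f) ?_
    intro X B Z
    have h2 := DEG.star_val (Equiv.sumComm (Fin l) (Fin 1))
      (blk (fun k => (Z k)ᵀ) (fun k => (B k)ᵀ) (fun _ => 0) (fun k => (X k)ᵀ)) f
    have h3 : (fun k => (Matrix.reindexAlgEquiv K K (Equiv.sumComm (Fin l) (Fin 1))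
        (blk (fun k => (Z k)ᵀ) (fun k => (B k)ᵀ) (fun _ => 0) (fun k => (X k)ᵀ) k))ᵀ) =
        blk X B (fun _ => 0) Z := by
      funext k
      ext a b
      rcases a with a | a <;> rcases b with b | b <;>
        simp [blk, Matrix.fromBlocks]
    rw [h3] at h2
    have h4 := hf (fun k => (Z k)ᵀ) (fun k => (B k)ᵀ) (fun k => (X k)ᵀ)
    unfold evm at h4 ⊢
    rw [h2, h4, map_zero, Matrix.transpose_zero]
  have h5 := DEG.SP_star _ _ h1
  rw [star_star] at h5
  exact h5

end Pool.Agent.K1H41.RD
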