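import Pool.Agent.K1H41.RD.Stm
import Pool.Agent.TH82.NC.Dom

/-!
# (DOM) the domain property for pairs of generic matrices of coprime sizes

The argument of `Pool.Agent.TH82.NC.Dom`, with the index group `Fin k × Fin l`, cyclic with
generator `(1, 1)`.
-/

set_option autoImplicit false

namespace Pool.Agent.K1H41.RD

open Matrix Polynomial

universe u v

namespace DOM

section Shift

variable {G : Type*} [AddCommGroup G] [Fintype G] [DecidableEq G] (g : G)
variable {A : Type*} [CommRing A] (τ : A →+* A)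

/-- Matrices supported on the `d`-th cyclic diagonal and equivariant under the cyclic shift. -/
def W (d : ℕ) (M : Matrix G G A) : Prop :=
  (∀ j k, M j k ≠ 0 → k = j + d • g) ∧ ∀ j k, M (j + g) (k + g) = τ (M j k)

omit [Fintype G] [DecidableEq G] in
theorem W_zero (d : ℕ) : W g τ d (0 : Matrix G G A) :=
  ⟨fun j k h => absurd rfl h, fun j k => by simp⟩

omit [Fintype G] [DecidableEq G] in
theorem W_add {d : ℕ} {M M' : Matrix G G A} (h : W g τ d M) (h' : W g τ d M') :
    W g τ d (M + M') := by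
  refine ⟨fun j k hne => ?_, fun j k => by simp [h.2, h'.2]⟩
  by_cases h0 : M j k = 0
  · refine h'.1 j k (fun h1 => hne (by simp [h0, h1]))
  · exact h.1 j k h0

omit [Fintype G] [DecidableEq G] in
theorem W_sum {ι : Type*} (s : Finset ι) {d : ℕ} (M : ι → Matrix G G A)
    (h : ∀ i ∈ s, W g τ d (M i)) : W g τ d (∑ i ∈ s, M i) := by
  classical
  induction s using Finset.induction_on with
  | empty => simpa using W_zero g τ d
  | insert a s ha ih =>
    rw [Finset.sum_insert ha]
    exact W_add g τ (h a (Finset.mem_insert_self _ _))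
      (ih fun i hi => h i (Finset.mem_insert_of_mem hi))

omit [DecidableEq G] in
theorem W_mul {d e : ℕ} {M M' : Matrix G G A} (h : W g τ d M) (h' : W g τ e M') :
    W g τ (d + e) (M * M') := by
  constructor
  · intro j k hne
    rw [mul_apply] at hne
    obtain ⟨l, -, hl⟩ := Finset.exists_ne_zero_of_sum_ne_zero hne
    have h1 : M j l ≠ 0 := left_ne_zero_of_mul hl
    have h2 : M' l k ≠ 0 := right_ne_zero_of_mul hl
    rw [h'.1 l k h2, h.1 j l h1, add_nsmul, add_assoc]
  · intro j k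
    rw [mul_apply, mul_apply, map_sum]
    rw [← Equiv.sum_comp (Equiv.addRight g)]
    refine Finset.sum_congr rfl fun l _ => ?_
    rw [Equiv.coe_addRight, h.2, h'.2, map_mul]

omit [Fintype G] [DecidableEq G] in
theorem W_ne (hg : ∀ x : G, ∃ n : ℕ, n • g = x) (hτ : Function.Injective τ) {d : ℕ}
    {M : Matrix G G A} (h : W g τ d M) (hM : M ≠ 0) (j : G) : M j (j + d • g) ≠ 0 := by
  obtain ⟨j0, k0, h0⟩ : ∃ j0 k0, M j0 k0 ≠ 0 := by
    by_contra hcon
    push Not at hcon
    exact hM (by ext1 a b; exact hcon a b)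
  have hk := h.1 j0 k0 h0
  have hm : ∀ m : ℕ, M (j0 + m • g) (k0 + m • g) ≠ 0 := by
    intro m
    induction m with
    | zero => simpa using h0
    | succ m ih =>
      rw [succ_nsmul, ← add_assoc, ← add_assoc, h.2]
      exact (map_ne_zero_iff τ hτ).mpr ih
  obtain ⟨n, hn⟩ := hg (j - j0)
  have e := hm n
  rw [hn, hk] at e
  have e1 : j0 + (j - j0) = j := by abel
  have e2 : j0 + d • g + (j - j0) = j + d • g := by abel
  rwa [e1, e2] at e

omit [DecidableEq G] in
theorem W_mul_ne [IsDomain A] (hg : ∀ x : G, ∃ n : ℕ, n • g = x) (hτ : Function.Injective τ)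
    {d e : ℕ} {M M' : Matrix G G A}
    (h : W g τ d M) (h' : W g τ e M') (hM : M ≠ 0) (hM' : M' ≠ 0) : M * M' ≠ 0 := by
  intro h0
  have e1 : (M * M') 0 (0 + d • g + e • g) = 0 := by rw [h0]; rfl
  rw [mul_apply, Finset.sum_eq_single (0 + d • g)] at e1
  · rcases mul_eq_zero.mp e1 with e2 | e2
    · exact W_ne g τ hg hτ h hM 0 e2
    · exact W_ne g τ hg hτ h' hM' _ e2
  · intro b _ hb
    have : M 0 b = 0 := by
      by_contra hcon
      exact hb (h.1 0 b hcon)
    rw [this, zero_mul]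
  · intro h1; exact absurd (Finset.mem_univ _) h1

end Shift

section Poly

variable {K : Type*} [Field K] {G : Type*} [AddCommGroup G] [Fintype G] [DecidableEq G] (g : G)
variable {A : Type*} [CommRing A] [Algebra K A]

/-- Polynomials with matrix coefficients, the `d`-th coefficient lying in `W d`. -/
def S (τ : A →ₐ[K] A) : Subalgebra K (Matrix G G A)[X] where
  carrier := {q | ∀ d, W g (τ : A →+* A) d (q.coeff d)}
  mul_mem' := by
    intro p q hp hq d
    rw [Polynomial.coeff_mul]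
    refine W_sum _ _ _ _ fun x hx => ?_
    rw [← Finset.HasAntidiagonal.mem_antidiagonal.mp hx]
    exact W_mul _ _ (hp _) (hq _)
  add_mem' := by
    intro p q hp hq d
    rw [Polynomial.coeff_add]
    exact W_add _ _ (hp d) (hq d)
  algebraMap_mem' := by
    intro c d
    have : (algebraMap K (Matrix G G A)[X]) c =
      C (algebraMap K (Matrix G G A) c) := rfl
    rw [this, coeff_C]
    by_cases hd : d = 0
    · rw [if_pos hd, hd]
      refine ⟨fun j k hjk => ?_, fun j k => ?_⟩
      · by_contra hcon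
        apply hjk
        rw [algebraMap_matrix_apply, if_neg]
        intro e; apply hcon; rw [e]; simp
      · rw [algebraMap_matrix_apply, algebraMap_matrix_apply]
        by_cases hjk : j = k
        · subst hjk; simp
        · rw [if_neg hjk, if_neg (fun e => hjk (add_right_cancel e)), map_zero]
    · rw [if_neg hd]; exact W_zero _ _ d

theorem S_mul [IsDomain A] (hg : ∀ x : G, ∃ n : ℕ, n • g = x) (τ : A →ₐ[K] A)
    (hτ : Function.Injective τ) {p q : (Matrix G G A)[X]} (hp : p ∈ S (K := K) g τ)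
    (hq : q ∈ S (K := K) g τ) (h : p * q = 0) : p = 0 ∨ q = 0 := by
  by_contra hne
  push Not at hne
  have h1 : p.leadingCoeff ≠ 0 := leadingCoeff_ne_zero.mpr hne.1
  have h2 : q.leadingCoeff ≠ 0 := leadingCoeff_ne_zero.mpr hne.2
  apply W_mul_ne g (τ : A →+* A) hg hτ (hp p.natDegree) (hq q.natDegree) h1 h2
  have h3 := coeff_mul_degree_add_degree p q
  rw [h, coeff_zero] at h3
  exact h3.symm

end Poly

section Main

variable {K : Type*} [Field K] {σ : Type*}

theorem lmap {τ : Type*} {B C : Type*} [Semiring B] [Algebra K B] [Semiring C] [Algebra K C]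
    (φ : B →ₐ[K] C) (Wt : τ → B) (f : FreeAlgebra K τ) :
    φ (FreeAlgebra.lift K Wt f) = FreeAlgebra.lift K (fun i => φ (Wt i)) f := by
  have : φ.comp (FreeAlgebra.lift K Wt) = FreeAlgebra.lift K (fun i => φ (Wt i)) := by
    apply FreeAlgebra.hom_ext
    funext i
    simp
  rw [← this]; rfl

/-- values over a commutative algebra -/
noncomputable def evB {B : Type*} [CommRing B] [Algebra K B] {k l : ℕ} (p : FreeAlgebra K (σ ⊕ σ))
    (X : σ → Matrix (Fin k) (Fin k) B) (Y : σ → Matrix (Fin l) (Fin l) B) :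
    Matrix (Fin k × Fin l) (Fin k × Fin l) B :=
  FreeAlgebra.lift K (Sum.elim
    (fun i => Matrix.kroneckerMap (· * ·) (X i) (1 : Matrix (Fin l) (Fin l) B))
    (fun j => Matrix.kroneckerMap (· * ·) (1 : Matrix (Fin k) (Fin k) B) (Y j))) p

theorem evB_map {B C : Type*} [CommRing B] [Algebra K B] [CommRing C] [Algebra K C] {k l : ℕ}
    (φ : B →ₐ[K] C) (p : FreeAlgebra K (σ ⊕ σ))
    (X : σ → Matrix (Fin k) (Fin k) B) (Y : σ → Matrix (Fin l) (Fin l) B) :
    φ.mapMatrix (evB p X Y) = evB p (fun i => φ.mapMatrix (X i)) (fun j => φ.mapMatrix (Y j)) := by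
  unfold evB
  rw [lmap]
  congr 2
  funext i
  rcases i with i | j
  · ext ⟨a, b⟩ ⟨c, d⟩
    simp only [Sum.elim_inl, AlgHom.mapMatrix_apply, Matrix.map_apply, kroneckerMap_apply, map_mul,
      Matrix.one_apply]
    split_ifs <;> simp
  · ext ⟨a, b⟩ ⟨c, d⟩
    simp only [Sum.elim_inr, AlgHom.mapMatrix_apply, Matrix.map_apply, kroneckerMap_apply, map_mul,
      Matrix.one_apply]
    split_ifs <;> simp

/-- coordinates of the generic matrices -/
abbrev Co (σ : Type*) (k l : ℕ) := (σ × Fin k × Fin k) ⊕ (σ × Fin l × Fin l)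

/-- the coordinate ring -/
abbrev GA (K : Type*) [Field K] (σ : Type*) (k l : ℕ) := MvPolynomial (Co σ k l) K

/-- generic matrices of size `k` -/
noncomputable def gX (K : Type*) [Field K] (σ : Type*) (k l : ℕ) (i : σ) :
    Matrix (Fin k) (Fin k) (GA K σ k l) :=
  Matrix.of fun b c => MvPolynomial.X (Sum.inl (i, b, c))

/-- generic matrices of size `l` -/
noncomputable def gY (K : Type*) [Field K] (σ : Type*) (k l : ℕ) (i : σ) :
    Matrix (Fin l) (Fin l) (GA K σ k l) :=
  Matrix.of fun b c => MvPolynomial.X (Sum.inr (i, b, c))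

/-- specialisation -/
noncomputable def spc {B : Type*} [CommRing B] [Algebra K B] {k l : ℕ}
    (X : σ → Matrix (Fin k) (Fin k) B) (Y : σ → Matrix (Fin l) (Fin l) B) :
    GA K σ k l →ₐ[K] B :=
  MvPolynomial.aeval (Sum.elim (fun p => X p.1 p.2.1 p.2.2) (fun p => Y p.1 p.2.1 p.2.2))

theorem spc_gen {B : Type*} [CommRing B] [Algebra K B] {k l : ℕ}
    (X : σ → Matrix (Fin k) (Fin k) B) (Y : σ → Matrix (Fin l) (Fin l) B)
    (p : FreeAlgebra K (σ ⊕ σ)) :
    (spc X Y).mapMatrix (evB p (gX K σ k l) (gY K σ k l)) = evB p X Y := by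
  rw [evB_map]
  congr 1
  · funext i
    ext b c
    simp [gX, spc]
  · funext i
    ext b c
    simp [gY, spc]

theorem transfer [Infinite K] {k l : ℕ} (p q : FreeAlgebra K (σ ⊕ σ))
    (h : ∀ (X : σ → Matrix (Fin k) (Fin k) K) (Y : σ → Matrix (Fin l) (Fin l) K),
      evB p X Y * evB q X Y = 0)
    {B : Type*} [CommRing B] [Algebra K B]
    (X : σ → Matrix (Fin k) (Fin k) B) (Y : σ → Matrix (Fin l) (Fin l) B) :
    evB p X Y * evB q X Y = 0 := by
  have hG : evB p (gX K σ k l) (gY K σ k l) * evB q (gX K σ k l) (gY K σ k l) = 0 := by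
    ext1 b c
    apply MvPolynomial.funext
    intro x
    have e0 : (spc (fun i => Matrix.of fun b c => x (Sum.inl (i, b, c)))
        (fun i => Matrix.of fun b c => x (Sum.inr (i, b, c))) : GA K σ k l →ₐ[K] K).mapMatrix
        (evB p (gX K σ k l) (gY K σ k l) * evB q (gX K σ k l) (gY K σ k l)) = 0 := by
      rw [map_mul, spc_gen, spc_gen, h]
    have e := congrFun (congrFun e0 b) c
    rw [Matrix.zero_apply, map_zero]
    have hx : (Sum.elim (fun p : σ × Fin k × Fin k => x (Sum.inl (p.1, p.2.1, p.2.2)))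
        (fun p : σ × Fin l × Fin l => x (Sum.inr (p.1, p.2.1, p.2.2)))) = x := by
      funext s
      rcases s with s | s <;> rfl
    simpa [spc, MvPolynomial.coe_aeval_eq_eval, hx] using e
  have e := congrArg (AlgHom.mapMatrix (m := Fin k × Fin l) (spc X Y)) hG
  rwa [map_mul, spc_gen, spc_gen, map_zero] at e

section Cyc

variable {k l : ℕ} [NeZero k] [NeZero l]

theorem cyc (hc : Nat.Coprime k l) (x : Fin k × Fin l) :
    ∃ n : ℕ, n • ((1, 1) : Fin k × Fin l) = x := by
  obtain ⟨n, h1, h2⟩ := Nat.chineseRemainder hc (x.1 : ℕ) (x.2 : ℕ)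
  refine ⟨n, ?_⟩
  ext
  · rw [Prod.smul_mk]
    simp only
    rw [Pool.Agent.TH82.NC.nsmul_one_val, h1, Nat.mod_eq_of_lt x.1.isLt]
  · rw [Prod.smul_mk]
    simp only
    rw [Pool.Agent.TH82.NC.nsmul_one_val, h2, Nat.mod_eq_of_lt x.2.isLt]

/-- the exponents -/
noncomputable def rr (hc : Nat.Coprime k l) (x : Fin k × Fin l) : ℕ := (cyc hc x).choose

theorem rr_spec (hc : Nat.Coprime k l) (x : Fin k × Fin l) :
    rr hc x • ((1, 1) : Fin k × Fin l) = x := (cyc hc x).choose_spec

/-- the shift of the coordinates -/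
noncomputable def sh (K : Type*) [Field K] (σ : Type*) (k l : ℕ) [NeZero k] [NeZero l] :
    GA K σ k l →ₐ[K] GA K σ k l :=
  MvPolynomial.rename (Sum.map (fun p => (p.1, p.2.1 + 1, p.2.2 + 1))
    (fun p => (p.1, p.2.1 + 1, p.2.2 + 1)))

theorem sh_inj : Function.Injective (sh K σ k l) := by
  apply MvPolynomial.rename_injective
  apply Function.Injective.sumMap
  · rintro ⟨a, b, c⟩ ⟨a', b', c'⟩ h
    simp only [Prod.mk.injEq, add_left_inj] at h
    obtain ⟨rfl, rfl, rfl⟩ := h
    rfl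
  · rintro ⟨a, b, c⟩ ⟨a', b', c'⟩ h
    simp only [Prod.mk.injEq, add_left_inj] at h
    obtain ⟨rfl, rfl, rfl⟩ := h
    rfl

/-- the scaled generic matrices -/
noncomputable def VX (K : Type*) [Field K] (σ : Type*) (hc : Nat.Coprime k l) (i : σ) :
    Matrix (Fin k) (Fin k) (GA K σ k l)[X] :=
  Matrix.of fun b c => C (MvPolynomial.X (Sum.inl (i, b, c))) * X ^ rr hc (c - b, 0)

/-- the scaled generic matrices -/
noncomputable def VY (K : Type*) [Field K] (σ : Type*) (hc : Nat.Coprime k l) (i : σ) :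
    Matrix (Fin l) (Fin l) (GA K σ k l)[X] :=
  Matrix.of fun b c => C (MvPolynomial.X (Sum.inr (i, b, c))) * X ^ rr hc (0, c - b)

theorem VX_mem (hc : Nat.Coprime k l) (i : σ) :
    matPolyEquiv (Matrix.kroneckerMap (· * ·) (VX K σ hc i)
      (1 : Matrix (Fin l) (Fin l) (GA K σ k l)[X])) ∈
      S (K := K) ((1, 1) : Fin k × Fin l) (sh K σ k l) := by
  intro d
  constructor
  · rintro ⟨a, b⟩ ⟨c, e⟩ h
    rw [matPolyEquiv_coeff_apply] at h
    simp only [VX, kroneckerMap_apply, Matrix.of_apply, Matrix.one_apply] at h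
    by_cases hbe : b = e
    · subst hbe
      rw [if_pos rfl, mul_one, coeff_C_mul, coeff_X_pow] at h
      by_cases hd : d = rr hc (c - a, 0)
      · rw [hd, rr_spec]
        ext
        · simp
        · simp
      · rw [if_neg hd, mul_zero] at h; exact absurd rfl h
    · rw [if_neg hbe, mul_zero, coeff_zero] at h; exact absurd rfl h
  · rintro ⟨a, b⟩ ⟨c, e⟩
    rw [matPolyEquiv_coeff_apply, matPolyEquiv_coeff_apply]
    simp only [VX, kroneckerMap_apply, Matrix.of_apply, Matrix.one_apply, Prod.mk_add_mk,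
      add_left_inj, add_sub_add_right_eq_sub]
    by_cases hbe : b = e
    · rw [if_pos hbe, mul_one, mul_one, coeff_C_mul, coeff_X_pow, coeff_C_mul, coeff_X_pow]
      by_cases hd : d = rr hc (c - a, 0)
      · rw [if_pos hd]; simp [sh]
      · rw [if_neg hd]; simp
    · rw [if_neg hbe]; simp

theorem VY_mem (hc : Nat.Coprime k l) (i : σ) :
    matPolyEquiv (Matrix.kroneckerMap (· * ·) (1 : Matrix (Fin k) (Fin k) (GA K σ k l)[X])
      (VY K σ hc i)) ∈
      S (K := K) ((1, 1) : Fin k × Fin l) (sh K σ k l) := by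
  intro d
  constructor
  · rintro ⟨a, b⟩ ⟨c, e⟩ h
    rw [matPolyEquiv_coeff_apply] at h
    simp only [VY, kroneckerMap_apply, Matrix.of_apply, Matrix.one_apply] at h
    by_cases hbe : a = c
    · subst hbe
      rw [if_pos rfl, one_mul, coeff_C_mul, coeff_X_pow] at h
      by_cases hd : d = rr hc (0, e - b)
      · rw [hd, rr_spec]
        ext
        · simp
        · simp
      · rw [if_neg hd, mul_zero] at h; exact absurd rfl h
    · rw [if_neg hbe, zero_mul, coeff_zero] at h; exact absurd rfl h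
  · rintro ⟨a, b⟩ ⟨c, e⟩
    rw [matPolyEquiv_coeff_apply, matPolyEquiv_coeff_apply]
    simp only [VY, kroneckerMap_apply, Matrix.of_apply, Matrix.one_apply, Prod.mk_add_mk,
      add_left_inj, add_sub_add_right_eq_sub]
    by_cases hbe : a = c
    · rw [if_pos hbe, one_mul, one_mul, coeff_C_mul, coeff_X_pow, coeff_C_mul, coeff_X_pow]
      by_cases hd : d = rr hc (0, e - b)
      · rw [if_pos hd]; simp [sh]
      · rw [if_neg hd]; simp
    · rw [if_neg hbe]; simp

end Cyc

end Main

end DOM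

theorem t_DOM : S_DOM.{u, v} := by
  intro K _ _ σ k l hk hl hc p q h
  have : NeZero k := ⟨hk.ne'⟩
  have : NeZero l := ⟨hl.ne'⟩
  let Φ : Matrix (Fin k × Fin l) (Fin k × Fin l) (DOM.GA K σ k l)[X] →ₐ[K]
      (Matrix (Fin k × Fin l) (Fin k × Fin l) (DOM.GA K σ k l))[X] :=
    (matPolyEquiv (n := Fin k × Fin l) (R := DOM.GA K σ k l)).toAlgHom.restrictScalars K
  have hΦ : ∀ M, Φ M = matPolyEquiv M := fun M => rfl
  have hmem : ∀ p : FreeAlgebra K (σ ⊕ σ), Φ (DOM.evB p (DOM.VX K σ hc) (DOM.VY K σ hc)) ∈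
      DOM.S (K := K) ((1, 1) : Fin k × Fin l) (DOM.sh K σ k l) := by
    intro p
    unfold DOM.evB
    rw [DOM.lmap]
    apply Pool.Agent.H552R3.PC.lift_mem
    intro i
    rcases i with i | i
    · exact DOM.VX_mem hc i
    · exact DOM.VY_mem hc i
  have h2 : Φ (DOM.evB p (DOM.VX K σ hc) (DOM.VY K σ hc)) *
      Φ (DOM.evB q (DOM.VX K σ hc) (DOM.VY K σ hc)) = 0 := by
    rw [← map_mul, DOM.transfer p q h, map_zero]
  have h3 := DOM.S_mul ((1, 1) : Fin k × Fin l) (DOM.cyc hc) (DOM.sh K σ k l) DOM.sh_inj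
    (hmem p) (hmem q) h2
  have h4 : ∀ p : FreeAlgebra K (σ ⊕ σ), Φ (DOM.evB p (DOM.VX K σ hc) (DOM.VY K σ hc)) = 0 →
      ∀ (X : σ → Matrix (Fin k) (Fin k) K) (Y : σ → Matrix (Fin l) (Fin l) K), evT p X Y = 0 := by
    intro p hp X Y
    have h4 : DOM.evB p (DOM.VX K σ hc) (DOM.VY K σ hc) = 0 := by
      rw [hΦ] at hp
      exact (EmbeddingLike.map_eq_zero_iff
        (f := matPolyEquiv (n := Fin k × Fin l) (R := DOM.GA K σ k l))).mp hp
    let ψ : (DOM.GA K σ k l)[X] →ₐ[K] K :=
      (DOM.spc X Y).comp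
        ((Polynomial.aeval (R := DOM.GA K σ k l) (1 : DOM.GA K σ k l)).restrictScalars K)
    have hX : (fun i => ψ.mapMatrix (DOM.VX K σ hc i)) = X := by
      funext i
      ext b c
      simp [ψ, DOM.VX, DOM.spc]
    have hY : (fun i => ψ.mapMatrix (DOM.VY K σ hc i)) = Y := by
      funext i
      ext b c
      simp [ψ, DOM.VY, DOM.spc]
    have e := congrArg (AlgHom.mapMatrix (m := Fin k × Fin l) ψ) h4
    rw [DOM.evB_map, hX, hY, map_zero] at e
    exact e
  rcases h3 with h3 | h3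
  · exact Or.inl (h4 p h3)
  · exact Or.inr (h4 q h3)

end Pool.Agent.K1H41.RD
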