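import Pool.Agent.K1H41.RD.Stm

/-!
# Project RD, piece INV: tuples with a common invariant subspace are block triangular
-/

set_option autoImplicit false

namespace Pool.Agent.K1H41.RD

open Matrix

universe u v

theorem t_INV : S_INV.{u, v} := by
  intro K _ σ n k l hkl W V hV hW
  obtain ⟨U, hU⟩ := Submodule.exists_isCompl V
  have hU2 : Module.finrank K U = l := by
    have h1 := Submodule.finrank_add_eq_of_isCompl hU
    rw [Module.finrank_fin_fun] at h1
    omega
  let bV : Module.Basis (Fin k) K V := Module.finBasisOfFinrankEq K V hV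
  let bU : Module.Basis (Fin l) K U := Module.finBasisOfFinrankEq K U hU2
  let b : Module.Basis (Fin k ⊕ Fin l) K (Fin n → K) :=
    (bV.prod bU).map (Submodule.prodEquivOfIsCompl V U hU)
  let Ψ : Matrix (Fin n) (Fin n) K ≃ₐ[K] Matrix (Fin k ⊕ Fin l) (Fin k ⊕ Fin l) K :=
    (Matrix.toLinAlgEquiv' (R := K) (n := Fin n)).trans (LinearMap.toMatrixAlgEquiv b)
  have hb : ∀ j : Fin k, b (Sum.inl j) ∈ V := by
    intro j
    have : b (Sum.inl j) = (bV j : Fin n → K) := by
      simp [b]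
    rw [this]
    exact (bV j).2
  have hr : ∀ x ∈ V, ∀ j : Fin l, b.repr x (Sum.inr j) = 0 := by
    intro x hx j
    have h1 : (Submodule.prodEquivOfIsCompl V U hU).symm x = ((⟨x, hx⟩ : V), (0 : U)) :=
      Submodule.prodEquivOfIsCompl_symm_apply_left V U hU (⟨x, hx⟩ : V)
    simp [b, h1]
  refine ⟨Ψ.symm, fun i => (Ψ (W i)).toBlocks₁₁, fun i => (Ψ (W i)).toBlocks₁₂,
    fun i => (Ψ (W i)).toBlocks₂₂, fun i => ?_⟩
  rw [AlgEquiv.eq_symm_apply]
  have h0 : (Ψ (W i)).toBlocks₂₁ = 0 := by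
    ext p q
    have h2 : Ψ (W i) (Sum.inr p) (Sum.inl q) = b.repr ((W i).mulVec (b (Sum.inl q))) (Sum.inr p) := by
      change LinearMap.toMatrixAlgEquiv b (Matrix.toLinAlgEquiv' (W i)) (Sum.inr p) (Sum.inl q) = _
      rw [LinearMap.toMatrixAlgEquiv_apply, Matrix.toLinAlgEquiv'_apply]
    have h3 := hr _ (hW i _ (hb q)) p
    rw [← h2] at h3
    simpa [Matrix.toBlocks₂₁] using h3
  unfold blk
  conv_lhs => rw [← Matrix.fromBlocks_toBlocks (Ψ (W i))]
  rw [h0]

end Pool.Agent.K1H41.RD
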