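import Pool.Agent.K1H41.RD.Stm

/-!
# Project RD (helper41), piece NIL: the first order condition near a direct sum
-/

set_option autoImplicit false

namespace Pool.Agent.K1H41.RD

open Matrix

universe u v

namespace NIL

/-- intertwining -/
theorem int {K : Type u} [Field K] {R : Type u} [CommRing R] [Algebra K R] {σ : Type v}
    {m n : Type} [Fintype m] [DecidableEq m] [Fintype n] [DecidableEq n]
    (J : Matrix m n R) (W : σ → Matrix m m R) (W' : σ → Matrix n n R)
    (h : ∀ i, W i * J = J * W' i) (f : FreeAlgebra K σ) :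
    FreeAlgebra.lift K W f * J = J * FreeAlgebra.lift K W' f := by
  induction f using FreeAlgebra.induction with
  | grade0 r =>
    simp only [AlgHom.commutes, Matrix.algebraMap_eq_diagonal]
    ext i j
    simp [Matrix.diagonal_mul, Matrix.mul_diagonal, mul_comm]
  | grade1 x => simpa using h x
  | mul a b ha hb => rw [map_mul, map_mul, Matrix.mul_assoc, hb, ← Matrix.mul_assoc, ha,
      Matrix.mul_assoc]
  | add a b ha hb => rw [map_add, map_add, Matrix.add_mul, ha, hb, Matrix.mul_add]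

/-- evaluation of matrices of polynomials -/
theorem ev_lift {K : Type u} [Field K] {σ : Type v} {m : Type} [Fintype m] [DecidableEq m]
    (W : σ → Matrix m m (Polynomial K)) (a : K) (f : FreeAlgebra K σ) :
    (Polynomial.aeval a : Polynomial K →ₐ[K] K).mapMatrix (FreeAlgebra.lift K W f)
      = FreeAlgebra.lift K (fun i => (Polynomial.aeval a : Polynomial K →ₐ[K] K).mapMatrix (W i)) f := by
  have h : ((Polynomial.aeval a : Polynomial K →ₐ[K] K).mapMatrix.comp (FreeAlgebra.lift K W))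
      = FreeAlgebra.lift K (fun i => (Polynomial.aeval a : Polynomial K →ₐ[K] K).mapMatrix (W i)) := by
    apply FreeAlgebra.hom_ext
    funext i
    simp
  exact congrArg (fun g => g f) h

/-- block triangular tuples -/
theorem tri {K : Type u} [Field K] {σ : Type v} {k l : ℕ}
    (X : σ → Matrix (Fin k) (Fin k) K) (B : σ → Matrix (Fin k) (Fin l) K)
    (Z : σ → Matrix (Fin l) (Fin l) K) (f : FreeAlgebra K σ) :
    evm f (blk X B (fun _ => 0) Z) = Matrix.fromBlocks (evm f X) (dd f X Z B) 0 (evm f Z) := by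
  set M := evm f (blk X B (fun _ => 0) Z) with hM
  have h1 := int (R := K) (Matrix.fromRows (1 : Matrix (Fin k) (Fin k) K) (0 : Matrix (Fin l) (Fin k) K))
    (blk X B (fun _ => 0) Z) X (fun i => by
      simp [blk, Matrix.fromBlocks_mul_fromRows, Matrix.fromRows_mul]) f
  have h2 := int (R := K) (Matrix.fromRows (0 : Matrix (Fin k) (Fin l) K) (1 : Matrix (Fin l) (Fin l) K)).transpose
    Z (blk X B (fun _ => 0) Z) (fun i => by
      simp [blk, Matrix.transpose_fromRows, Matrix.fromCols_mul_fromBlocks, Matrix.mul_fromCols]) f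
  have h3 : M = Matrix.fromBlocks M.toBlocks₁₁ M.toBlocks₁₂ M.toBlocks₂₁ M.toBlocks₂₂ :=
    (Matrix.fromBlocks_toBlocks M).symm
  have h1' : M * (Matrix.fromRows (1 : Matrix (Fin k) (Fin k) K) (0 : Matrix (Fin l) (Fin k) K))
    = (Matrix.fromRows (1 : Matrix (Fin k) (Fin k) K) (0 : Matrix (Fin l) (Fin k) K)) * evm f X := h1
  have h2' : evm f Z * (Matrix.fromRows (0 : Matrix (Fin k) (Fin l) K) (1 : Matrix (Fin l) (Fin l) K)).transpose
    = (Matrix.fromRows (0 : Matrix (Fin k) (Fin l) K) (1 : Matrix (Fin l) (Fin l) K)).transpose * M := h2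
  rw [h3] at h1' h2'
  rw [Matrix.fromBlocks_mul_fromRows, Matrix.fromRows_mul, Matrix.fromRows_ext_iff] at h1'
  rw [Matrix.transpose_fromRows, Matrix.fromCols_mul_fromBlocks, Matrix.mul_fromCols,
    Matrix.fromCols_ext_iff] at h2'
  simp only [Matrix.mul_one, Matrix.mul_zero, add_zero, Matrix.one_mul, Matrix.zero_mul,
    Matrix.transpose_zero, Matrix.transpose_one, zero_add] at h1' h2'
  rw [h3, h1'.1, h1'.2, h2'.2]
  rfl

/-- block triangular tuples, the other way round -/
theorem tri' {K : Type u} [Field K] {σ : Type v} {k l : ℕ}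
    (X : σ → Matrix (Fin k) (Fin k) K) (C : σ → Matrix (Fin l) (Fin k) K)
    (Z : σ → Matrix (Fin l) (Fin l) K) (f : FreeAlgebra K σ) :
    evm f (blk X (fun _ => 0) C Z) = Matrix.fromBlocks (evm f X) 0 (dd f Z X C) (evm f Z) := by
  set M := evm f (blk X (fun _ => 0) C Z) with hM
  let J : Matrix (Fin k ⊕ Fin l) (Fin l ⊕ Fin k) K :=
    Matrix.fromBlocks (0 : Matrix (Fin k) (Fin l) K) 1 1 0
  have h1 := int (R := K) J
    (blk X (fun _ => 0) C Z) (blk Z C (fun _ => 0) X) (fun i => by
      simp [J, blk, Matrix.fromBlocks_multiply]) f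
  have h3 : M = Matrix.fromBlocks M.toBlocks₁₁ M.toBlocks₁₂ M.toBlocks₂₁ M.toBlocks₂₂ :=
    (Matrix.fromBlocks_toBlocks M).symm
  have h1' : M * J = J * evm f (blk Z C (fun _ => 0) X) := h1
  rw [tri Z C X f, h3] at h1'
  simp only [J] at h1'
  rw [Matrix.fromBlocks_multiply, Matrix.fromBlocks_multiply] at h1'
  simp only [Matrix.mul_one, Matrix.mul_zero, add_zero, Matrix.one_mul, Matrix.zero_mul,
    zero_add] at h1'
  obtain ⟨ha, hb, hc, hd⟩ := Matrix.fromBlocks_inj.mp h1'
  rw [h3, ha, hb, hc, hd]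

/-- powers of block triangular matrices -/
theorem pow_tri {K : Type u} [Field K] {k l : ℕ}
    (A : Matrix (Fin k) (Fin k) K) (B : Matrix (Fin k) (Fin l) K) (D : Matrix (Fin l) (Fin l) K)
    (m : ℕ) : ∃ E : Matrix (Fin k) (Fin l) K,
      (Matrix.fromBlocks A B 0 D) ^ m = Matrix.fromBlocks (A ^ m) E 0 (D ^ m) := by
  induction m with
  | zero => exact ⟨0, by simp [Matrix.fromBlocks_one]⟩
  | succ m ih =>
    obtain ⟨E, hE⟩ := ih
    refine ⟨A ^ m * B + E * D, ?_⟩
    rw [pow_succ, hE, Matrix.fromBlocks_multiply, pow_succ, pow_succ]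
    simp

/-- a polynomial vanishing at all nonzero points is zero at zero -/
theorem eval_zero_of {K : Type u} [Field K] [Infinite K] (p : Polynomial K)
    (h : ∀ a : K, a ≠ 0 → p.eval a = 0) : p.eval 0 = 0 := by
  have : p * Polynomial.X = 0 := by
    apply Polynomial.funext
    intro a
    by_cases ha : a = 0
    · simp [ha]
    · simp [h a ha]
  rcases mul_eq_zero.mp this with h | h
  · simp [h]
  · exact absurd h Polynomial.X_ne_zero

end NIL

open Polynomial in
theorem t_NIL : S_NIL.{u, v} := by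
  intro K _ _ σ k l ν hk hl hν f hf hX hZ X Z B Cc
  obtain ⟨m, rfl⟩ := hν
  -- the generic tuples
  let t : Polynomial K := Polynomial.X
  let cm : ∀ {a b : ℕ}, Matrix (Fin a) (Fin b) K → Matrix (Fin a) (Fin b) (Polynomial K) :=
    fun M => M.map Polynomial.C
  let WF : σ → Matrix (Fin k ⊕ Fin l) (Fin k ⊕ Fin l) (Polynomial K) := fun i =>
    Matrix.fromBlocks (cm (X i)) (cm (B i)) (t • cm (Cc i)) (cm (Z i))
  let WG : σ → Matrix (Fin k ⊕ Fin l) (Fin k ⊕ Fin l) (Polynomial K) := fun i =>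
    Matrix.fromBlocks (cm (X i)) (t • cm (B i)) (cm (Cc i)) (cm (Z i))
  set F := FreeAlgebra.lift K WF f with hF
  set G := FreeAlgebra.lift K WG f with hG
  let ev : K → Matrix (Fin k ⊕ Fin l) (Fin k ⊕ Fin l) (Polynomial K) →ₐ[K]
      Matrix (Fin k ⊕ Fin l) (Fin k ⊕ Fin l) K := fun a => (Polynomial.aeval a).mapMatrix
  have evF : ∀ a : K, ev a F = evm f (blk X B (fun i => a • Cc i) Z) := by
    intro a
    change (Polynomial.aeval a : Polynomial K →ₐ[K] K).mapMatrix (FreeAlgebra.lift K WF f) = _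
    rw [NIL.ev_lift]
    unfold evm
    congr 2
    funext i
    ext x y
    rcases x with x | x <;> rcases y with y | y <;> simp [WF, blk, cm, t]
    ring
  have evG : ev 0 G = evm f (blk X (fun _ => 0) Cc Z) := by
    change (Polynomial.aeval (0 : K) : Polynomial K →ₐ[K] K).mapMatrix (FreeAlgebra.lift K WG f) = _
    rw [NIL.ev_lift]
    unfold evm
    congr 2
    funext i
    ext x y
    rcases x with x | x <;> rcases y with y | y <;> simp [WG, blk, cm, t]
  -- intertwining
  have hint : G * Matrix.fromBlocks (t • (1 : Matrix (Fin k) (Fin k) (Polynomial K))) 0 0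
        (1 : Matrix (Fin l) (Fin l) (Polynomial K))
      = Matrix.fromBlocks (t • (1 : Matrix (Fin k) (Fin k) (Polynomial K))) 0 0
        (1 : Matrix (Fin l) (Fin l) (Polynomial K)) * F := by
    apply NIL.int
    intro i
    simp [WF, WG, Matrix.fromBlocks_multiply]
  have hFb : F = Matrix.fromBlocks F.toBlocks₁₁ F.toBlocks₁₂ F.toBlocks₂₁ F.toBlocks₂₂ :=
    (Matrix.fromBlocks_toBlocks F).symm
  have hGb : G = Matrix.fromBlocks G.toBlocks₁₁ G.toBlocks₁₂ G.toBlocks₂₁ G.toBlocks₂₂ :=
    (Matrix.fromBlocks_toBlocks G).symm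
  have hev : ∀ (a : K) (M : Matrix (Fin k ⊕ Fin l) (Fin k ⊕ Fin l) (Polynomial K)) (x y),
      ev a M x y = (M x y).eval a := by
    intro a M x y
    simp [ev]
  have h21 : F.toBlocks₂₁ = t • G.toBlocks₂₁ := by
    rw [hFb, hGb, Matrix.fromBlocks_multiply, Matrix.fromBlocks_multiply] at hint
    obtain ⟨ha, hb, hc, hd⟩ := Matrix.fromBlocks_inj.mp hint
    simp at hc
    exact hc.symm
  have hev0 : ev 0 F = Matrix.fromBlocks 0 (dd f X Z B) 0 0 := by
    rw [evF 0]
    have : (fun i => (0 : K) • Cc i) = fun _ => 0 := by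
      funext i
      simp
    rw [this, NIL.tri, hX, hZ]
  have hev0G : ev 0 G = Matrix.fromBlocks 0 0 (dd f Z X Cc) 0 := by
    rw [evG, NIL.tri', hX, hZ]
  -- the diagonal blocks are divisible by `t`
  have h11 : ∃ P : Matrix (Fin k) (Fin k) (Polynomial K), F.toBlocks₁₁ = t • P := by
    refine ⟨F.toBlocks₁₁.map Polynomial.divX, ?_⟩
    ext1 x y
    have h0 : (F (Sum.inl x) (Sum.inl y)).coeff 0 = 0 := by
      rw [Polynomial.coeff_zero_eq_eval_zero, ← hev, hev0]
      rfl
    have := Polynomial.divX_mul_X_add (F (Sum.inl x) (Sum.inl y))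
    rw [h0, Polynomial.C_0, add_zero] at this
    simp only [Matrix.toBlocks₁₁, Matrix.smul_apply, Matrix.map_apply, Matrix.of_apply, smul_eq_mul]
    exact this.symm.trans (mul_comm _ _)
  have h22 : ∃ P : Matrix (Fin l) (Fin l) (Polynomial K), F.toBlocks₂₂ = t • P := by
    refine ⟨F.toBlocks₂₂.map Polynomial.divX, ?_⟩
    ext1 x y
    have h0 : (F (Sum.inr x) (Sum.inr y)).coeff 0 = 0 := by
      rw [Polynomial.coeff_zero_eq_eval_zero, ← hev, hev0]
      rfl
    have := Polynomial.divX_mul_X_add (F (Sum.inr x) (Sum.inr y))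
    rw [h0, Polynomial.C_0, add_zero] at this
    simp only [Matrix.toBlocks₂₂, Matrix.smul_apply, Matrix.map_apply, Matrix.of_apply, smul_eq_mul]
    exact this.symm.trans (mul_comm _ _)
  obtain ⟨P1, hP1⟩ := h11
  obtain ⟨P2, hP2⟩ := h22
  set F12 := F.toBlocks₁₂ with hF12
  set G21 := G.toBlocks₂₁ with hG21
  let H : Matrix (Fin k ⊕ Fin l) (Fin k ⊕ Fin l) (Polynomial K) :=
    Matrix.fromBlocks (F12 * G21 + t • (P1 * P1)) (P1 * F12 + F12 * P2)
      (t • (G21 * P1 + P2 * G21)) (G21 * F12 + t • (P2 * P2))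
  have hFF : F * F = t • H := by
    rw [hFb, hP1, hP2, h21, Matrix.fromBlocks_multiply, Matrix.fromBlocks_smul]
    congr 1
    · simp only [Matrix.smul_mul, Matrix.mul_smul, smul_add]
      abel
    · simp only [Matrix.smul_mul, Matrix.mul_smul, smul_add]
    · simp only [Matrix.smul_mul, Matrix.mul_smul, smul_add]
    · simp only [Matrix.smul_mul, Matrix.mul_smul, smul_add]
  have hpow : F ^ (2 * m + 1) = t ^ m • (H ^ m * F) := by
    rw [pow_succ, pow_mul, pow_two, hFF, _root_.smul_pow, Matrix.smul_mul]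
  -- the off-diagonal block of `H ^ m * F` vanishes at zero
  have hoff : ∀ (x : Fin k) (y : Fin l), ((H ^ m * F) (Sum.inl x) (Sum.inr y)).eval 0 = 0 := by
    intro x y
    apply NIL.eval_zero_of
    intro a ha
    obtain ⟨c, hc⟩ := hf (blk X B (fun i => a • Cc i) Z)
    rw [← evF a, ← map_pow, hpow] at hc
    have h1 := congrFun (congrFun hc (Sum.inl x)) (Sum.inr y)
    rw [hev] at h1
    simp only [Matrix.smul_apply, smul_eq_mul, Polynomial.eval_mul, Polynomial.eval_pow] at h1
    have h2 : (Matrix.scalar (Fin k ⊕ Fin l) c) (Sum.inl x) (Sum.inr y) = 0 := by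
      simp [Matrix.scalar_apply]
    rw [h2] at h1
    rcases mul_eq_zero.mp h1 with h | h
    · simp [t, ha] at h
    · exact h
  have evH : ∃ b d, ev 0 H = Matrix.fromBlocks (dd f X Z B * dd f Z X Cc) b 0 d := by
    have h12 : ∀ x y, (F12 x y).eval 0 = dd f X Z B x y := by
      intro x y
      have := hev 0 F (Sum.inl x) (Sum.inr y)
      rw [hev0] at this
      exact this.symm
    have h21' : ∀ x y, (G21 x y).eval 0 = dd f Z X Cc x y := by
      intro x y
      have := hev 0 G (Sum.inr x) (Sum.inl y)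
      rw [hev0G] at this
      exact this.symm
    refine ⟨(ev 0 H).toBlocks₁₂, (ev 0 H).toBlocks₂₂, ?_⟩
    have h3 : ev 0 H = Matrix.fromBlocks (ev 0 H).toBlocks₁₁ (ev 0 H).toBlocks₁₂
      (ev 0 H).toBlocks₂₁ (ev 0 H).toBlocks₂₂ := (Matrix.fromBlocks_toBlocks _).symm
    have h4 : (ev 0 H).toBlocks₁₁ = dd f X Z B * dd f Z X Cc := by
      ext x y
      have := hev 0 H (Sum.inl x) (Sum.inl y)
      simp only [Matrix.toBlocks₁₁, Matrix.of_apply]
      rw [this]
      simp only [H, Matrix.fromBlocks_apply₁₁, Matrix.add_apply, Matrix.smul_apply,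
        Matrix.mul_apply, Polynomial.eval_add, smul_eq_mul, Polynomial.eval_mul,
        Polynomial.eval_finsetSum, h12, h21', t, Polynomial.eval_X, zero_mul, add_zero]
    have h5 : (ev 0 H).toBlocks₂₁ = 0 := by
      ext x y
      have := hev 0 H (Sum.inr x) (Sum.inl y)
      simp only [Matrix.toBlocks₂₁, Matrix.of_apply]
      rw [this]
      simp only [H, Matrix.fromBlocks_apply₂₁, Matrix.smul_apply, smul_eq_mul, Polynomial.eval_mul,
        t, Polynomial.eval_X, zero_mul, Matrix.zero_apply]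
    rw [h4, h5] at h3
    exact h3
  obtain ⟨b, d, hbd⟩ := evH
  obtain ⟨E, hE⟩ := NIL.pow_tri (dd f X Z B * dd f Z X Cc) b d m
  have hzero : (dd f X Z B * dd f Z X Cc) ^ m * dd f X Z B = 0 := by
    have h1 : ev 0 (H ^ m * F) = Matrix.fromBlocks 0 ((dd f X Z B * dd f Z X Cc) ^ m * dd f X Z B) 0 0 := by
      rw [map_mul, map_pow, hbd, hE, hev0, Matrix.fromBlocks_multiply]
      simp
    ext x y
    have h2 := hoff x y
    rw [← hev, h1] at h2
    exact h2
  have hnil : IsNilpotent (dd f X Z B * dd f Z X Cc) := by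
    refine ⟨m + 1, ?_⟩
    rw [pow_succ, ← Matrix.mul_assoc, hzero, Matrix.zero_mul]
  exact (Matrix.isNilpotent_trace_of_isNilpotent hnil).eq_zero

end Pool.Agent.K1H41.RD
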