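import Pool.Agent.K1H41.RD.Stm
import Pool.Agent.K1H41.NF.T_NG
import Pool.Agent.TH82.NC.Dom

/-! Smaller matrices and the constant term (helper28, for helper41, project RD). -/

set_option autoImplicit false

namespace Pool.Agent.K1H41.RD

open Matrix

universe u v

namespace SML

variable {K : Type u} [Field K] {σ : Type v}

theorem lift_blocks {k l : ℕ} (X : σ → Matrix (Fin k) (Fin k) K)
    (Z : σ → Matrix (Fin l) (Fin l) K) (f : FreeAlgebra K σ) :
    FreeAlgebra.lift K (fun i => Matrix.fromBlocks (X i) 0 0 (Z i)) f =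
      Matrix.fromBlocks (FreeAlgebra.lift K X f) 0 0 (FreeAlgebra.lift K Z f) := by
  induction f using FreeAlgebra.induction with
  | grade0 r =>
    rw [AlgHom.commutes, AlgHom.commutes, AlgHom.commutes, Matrix.algebraMap_eq_diagonal,
      Matrix.algebraMap_eq_diagonal, Matrix.algebraMap_eq_diagonal, Matrix.fromBlocks_diagonal]
    congr 1
    funext i
    rcases i with i | i <;> rfl
  | grade1 x => simp only [FreeAlgebra.lift_ι_apply]
  | mul a b ha hb =>
    rw [map_mul, map_mul, map_mul, ha, hb, Matrix.fromBlocks_multiply]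
    simp
  | add a b ha hb =>
    rw [map_add, map_add, map_add, ha, hb, Matrix.fromBlocks_add]
    simp

theorem lift_zero {A : Type u} [Ring A] [Algebra K A] (f : FreeAlgebra K σ) :
    FreeAlgebra.lift K (fun _ => (0 : A)) f =
      algebraMap K A (FreeAlgebra.algebraMapInv f) := by
  have h : FreeAlgebra.lift K (fun _ : σ => (0 : A)) =
      (Algebra.ofId K A).comp FreeAlgebra.algebraMapInv := by
    ext x
    simp [FreeAlgebra.algebraMapInv]
  rw [h]
  rfl

theorem algebraMap_scalar {n : ℕ} (c : K) :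
    algebraMap K (Matrix (Fin n) (Fin n) K) c = Matrix.scalar (Fin n) c := by
  rw [Matrix.algebraMap_eq_diagonal, Matrix.scalar_apply]
  rfl

end SML

open SML

theorem t_SML : S_SML.{u, v} := by
  intro K _ _ σ n m ν hmn hν f hf h0 X
  refine Pool.Agent.TH82.NC.vanish_of_pow m f ν (fun X => ?_) X
  have hn : Nonempty (Fin n) := ⟨⟨0, by omega⟩⟩
  -- the constant term
  have hc0 : FreeAlgebra.algebraMapInv f = (0 : K) := by
    rw [lift_zero, algebraMap_scalar] at h0
    exact (Matrix.scalar_inj (n := Fin n)).1 (by rw [h0, map_zero])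
  set e : Fin m ⊕ Fin (n - m) ≃ Fin n := finSumFinEquiv.trans (finCongr (by omega)) with he
  set Φ := Matrix.reindexAlgEquiv K K e with hΦ
  obtain ⟨c, hc⟩ := hf fun i => Φ (Matrix.fromBlocks (X i) 0 0 0)
  have h1 : FreeAlgebra.lift K (fun i => Φ (Matrix.fromBlocks (X i) 0 0 0)) f =
      Φ (FreeAlgebra.lift K (fun i => Matrix.fromBlocks (X i) 0 0
        (0 : Matrix (Fin (n - m)) (Fin (n - m)) K)) f) := by
    have h2 : FreeAlgebra.lift K (fun i => Φ (Matrix.fromBlocks (X i) 0 0 0)) =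
        (Φ : _ →ₐ[K] _).comp (FreeAlgebra.lift K (fun i => Matrix.fromBlocks (X i) 0 0
        (0 : Matrix (Fin (n - m)) (Fin (n - m)) K))) := by
      ext x
      simp
    rw [h2]
    rfl
  have h3 : FreeAlgebra.lift K (fun _ => (0 : Matrix (Fin (n - m)) (Fin (n - m)) K)) f = 0 := by
    rw [lift_zero, hc0, map_zero]
  rw [h1, lift_blocks, h3, ← map_pow, ← algebraMap_scalar, ← Φ.commutes c] at hc
  have h4 := Φ.injective hc
  have h5 : Matrix.fromBlocks (FreeAlgebra.lift K X f) 0 0
      (0 : Matrix (Fin (n - m)) (Fin (n - m)) K) ^ ν =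
      Matrix.fromBlocks (FreeAlgebra.lift K X f ^ ν) 0 0 (0 ^ ν) := by
    have h6 : ∀ k : ℕ, Matrix.fromBlocks (FreeAlgebra.lift K X f) 0 0
      (0 : Matrix (Fin (n - m)) (Fin (n - m)) K) ^ k =
      Matrix.fromBlocks (FreeAlgebra.lift K X f ^ k) 0 0 (0 ^ k) := by
      intro k
      induction k with
      | zero => simp
      | succ k ih =>
        rw [pow_succ, ih, Matrix.fromBlocks_multiply]
        simp [pow_succ]
    exact h6 ν
  rw [h5, zero_pow hν.ne', Matrix.algebraMap_eq_diagonal] at h4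
  have h7 : c = 0 := by
    have h8 := congrFun (congrFun h4 (Sum.inr ⟨0, by omega⟩)) (Sum.inr ⟨0, by omega⟩)
    simpa using h8.symm
  rw [map_pow]
  have h9 := congrArg Matrix.toBlocks₁₁ h4
  rw [Matrix.toBlocks_fromBlocks₁₁] at h9
  rw [h9, h7]
  ext i j
  simp [Matrix.toBlocks₁₁]

theorem t_CON : S_CON.{u, v} := by
  intro K _ _ σ n hn f hf
  have hne : Nonempty (Fin n) := ⟨⟨0, hn.pos⟩⟩
  have h0 : FreeAlgebra.lift K (fun _ => (0 : Matrix (Fin n) (Fin n) K)) f =
      Matrix.scalar (Fin n) (FreeAlgebra.algebraMapInv f) := by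
    rw [lift_zero, algebraMap_scalar]
  have hc : (n : K) ≠ 0 → FreeAlgebra.algebraMapInv f = (0 : K) := by
    intro hnK
    have hG := NF.t_NG K σ n hn hnK f hf
    have h1 := hG.tr fun _ => 0
    rw [NF.ev, h0, Matrix.scalar_apply, Matrix.trace_diagonal] at h1
    simp only [Finset.sum_const, Finset.card_univ, Fintype.card_fin, nsmul_eq_mul] at h1
    exact (mul_eq_zero.1 h1).resolve_left hnK
  refine ⟨FreeAlgebra.algebraMapInv f, hc, h0, fun X => ?_⟩
  obtain ⟨d, hd⟩ := hf.2.1.1 X
  rw [map_pow] at hd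
  by_cases hnK : (n : K) = 0
  · have hfact : Fact n.Prime := ⟨hn⟩
    have hchar : CharP K n := (CharP.charP_iff_prime_eq_zero hn).2 hnK
    refine ⟨d - FreeAlgebra.algebraMapInv f ^ n, ?_⟩
    rw [map_sub, AlgHom.commutes,
      sub_pow_char_of_commute n (Algebra.commute_algebraMap_right _ _), hd, ← map_pow,
      algebraMap_scalar, map_sub]
  · refine ⟨d, ?_⟩
    rw [hc hnK, map_zero, sub_zero, hd]

end Pool.Agent.K1H41.RD
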