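import Pool.Agent.K1H41.RD.Stm

set_option autoImplicit false

namespace Pool.Agent.K1H41.RD

open Matrix

universe u v

namespace VEC

variable {K : Type u} [Field K] {σ : Type v}

/-- the factor on the left -/
noncomputable def LL (f : FreeAlgebra K σ) : FreeAlgebra K (σ ⊕ σ) :=
  FreeAlgebra.lift K (fun i => FreeAlgebra.ι K (Sum.inl i)) f

/-- the factor on the right, reversed -/
noncomputable def RR (f : FreeAlgebra K σ) : FreeAlgebra K (σ ⊕ σ) :=
  MulOpposite.unop
    (FreeAlgebra.lift K (fun i => MulOpposite.op (FreeAlgebra.ι K (Sum.inr i : σ ⊕ σ))) f)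

theorem evm_mul {ι : Type} [Fintype ι] [DecidableEq ι] (f g : FreeAlgebra K σ)
    (W : σ → Matrix ι ι K) : evm (f * g) W = evm f W * evm g W := by
  simp [evm]

theorem evm_add {ι : Type} [Fintype ι] [DecidableEq ι] (f g : FreeAlgebra K σ)
    (W : σ → Matrix ι ι K) : evm (f + g) W = evm f W + evm g W := by
  simp [evm]

theorem evm_ι {ι : Type} [Fintype ι] [DecidableEq ι] (i : σ)
    (W : σ → Matrix ι ι K) : evm (FreeAlgebra.ι K i) W = W i := by
  simp [evm]

theorem evm_alg {ι : Type} [Fintype ι] [DecidableEq ι] (c : K)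
    (W : σ → Matrix ι ι K) : evm (algebraMap K _ c) W = c • (1 : Matrix ι ι K) := by
  simp [evm, Algebra.algebraMap_eq_smul_one]

theorem evT_mul {k l : ℕ} (p q : FreeAlgebra K (σ ⊕ σ))
    (X : σ → Matrix (Fin k) (Fin k) K) (Y : σ → Matrix (Fin l) (Fin l) K) :
    evT (p * q) X Y = evT p X Y * evT q X Y := by
  simp [evT]

theorem evT_add {k l : ℕ} (p q : FreeAlgebra K (σ ⊕ σ))
    (X : σ → Matrix (Fin k) (Fin k) K) (Y : σ → Matrix (Fin l) (Fin l) K) :
    evT (p + q) X Y = evT p X Y + evT q X Y := by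
  simp [evT]

theorem evT_zero {k l : ℕ}
    (X : σ → Matrix (Fin k) (Fin k) K) (Y : σ → Matrix (Fin l) (Fin l) K) :
    evT (0 : FreeAlgebra K (σ ⊕ σ)) X Y = 0 := by
  simp [evT]

theorem evT_one {k l : ℕ}
    (X : σ → Matrix (Fin k) (Fin k) K) (Y : σ → Matrix (Fin l) (Fin l) K) :
    evT (1 : FreeAlgebra K (σ ⊕ σ)) X Y = 1 := by
  simp [evT]

theorem evT_alg {k l : ℕ} (c : K)
    (X : σ → Matrix (Fin k) (Fin k) K) (Y : σ → Matrix (Fin l) (Fin l) K) :
    evT (algebraMap K (FreeAlgebra K (σ ⊕ σ)) c) X Y = c • 1 := by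
  simp [evT, Algebra.algebraMap_eq_smul_one]

theorem evT_LL {k l : ℕ} (f : FreeAlgebra K σ)
    (X : σ → Matrix (Fin k) (Fin k) K) (Y : σ → Matrix (Fin l) (Fin l) K) :
    ∀ A : Matrix (Fin k) (Fin l) K, evT (LL f) X Y *ᵥ vv A = vv (evm f X * A) := by
  induction f using FreeAlgebra.induction with
  | grade0 c =>
    intro A
    have : LL (algebraMap K (FreeAlgebra K σ) c) = algebraMap K _ c := by simp [LL]
    rw [this, evT_alg, evm_alg, smul_mulVec, one_mulVec, Matrix.smul_mul, Matrix.one_mul]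
    rfl
  | grade1 i =>
    intro A
    have : LL (FreeAlgebra.ι K i : FreeAlgebra K σ) = FreeAlgebra.ι K (Sum.inl i) := by simp [LL]
    rw [this, evm_ι]
    have h2 : evT (FreeAlgebra.ι K (Sum.inl i) : FreeAlgebra K (σ ⊕ σ)) X Y =
        Matrix.kroneckerMap (· * ·) (X i) (1 : Matrix (Fin l) (Fin l) K) := by simp [evT]
    rw [h2]
    funext ab
    obtain ⟨a, b⟩ := ab
    simp only [mulVec, dotProduct, vv, kroneckerMap_apply, Fintype.sum_prod_type, Matrix.mul_apply,
      Matrix.one_apply]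
    refine Finset.sum_congr rfl fun x _ => ?_
    simp
  | mul f g hf hg =>
    intro A
    have : LL (f * g) = LL f * LL g := by simp [LL]
    rw [this, evT_mul, ← mulVec_mulVec, hg, hf, evm_mul, Matrix.mul_assoc]
  | add f g hf hg =>
    intro A
    have : LL (f + g) = LL f + LL g := by simp [LL]
    rw [this, evT_add, add_mulVec, hg, hf, evm_add, Matrix.add_mul]
    rfl

theorem evT_RR {k l : ℕ} (f : FreeAlgebra K σ)
    (X : σ → Matrix (Fin k) (Fin k) K) (Z : σ → Matrix (Fin l) (Fin l) K) :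
    ∀ A : Matrix (Fin k) (Fin l) K, evT (RR f) X (fun j => (Z j)ᵀ) *ᵥ vv A = vv (A * evm f Z) := by
  induction f using FreeAlgebra.induction with
  | grade0 c =>
    intro A
    have : RR (algebraMap K (FreeAlgebra K σ) c) = algebraMap K _ c := by simp [RR]
    rw [this, evT_alg, evm_alg, smul_mulVec, one_mulVec, Matrix.mul_smul, Matrix.mul_one]
    rfl
  | grade1 i =>
    intro A
    have : RR (FreeAlgebra.ι K i : FreeAlgebra K σ) = FreeAlgebra.ι K (Sum.inr i) := by simp [RR]
    rw [this, evm_ι]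
    have h2 : evT (FreeAlgebra.ι K (Sum.inr i) : FreeAlgebra K (σ ⊕ σ)) X (fun j => (Z j)ᵀ) =
        Matrix.kroneckerMap (· * ·) (1 : Matrix (Fin k) (Fin k) K) (Z i)ᵀ := by simp [evT]
    rw [h2]
    funext ab
    obtain ⟨a, b⟩ := ab
    simp only [mulVec, dotProduct, vv, kroneckerMap_apply, Fintype.sum_prod_type, Matrix.mul_apply,
      Matrix.one_apply, transpose_apply]
    rw [Finset.sum_eq_single a]
    · refine Finset.sum_congr rfl fun x _ => ?_
      simp [mul_comm]
    · intro a' _ ha'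
      refine Finset.sum_eq_zero fun x _ => ?_
      simp [Ne.symm ha']
    · intro h
      exact absurd (Finset.mem_univ a) h
  | mul f g hf hg =>
    intro A
    have : RR (f * g) = RR g * RR f := by simp [RR]
    rw [this, evT_mul, ← mulVec_mulVec, hf, hg, evm_mul, Matrix.mul_assoc]
  | add f g hf hg =>
    intro A
    have : RR (f + g) = RR f + RR g := by simp [RR]
    rw [this, evT_add, add_mulVec, hg, hf, evm_add, Matrix.mul_add]
    rfl

theorem evm_blk {k l : ℕ} (f : FreeAlgebra K σ) (X : σ → Matrix (Fin k) (Fin k) K)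
    (Z : σ → Matrix (Fin l) (Fin l) K) (B : σ → Matrix (Fin k) (Fin l) K) :
    evm f (blk X B (fun _ => 0) Z) = fromBlocks (evm f X) (dd f X Z B) 0 (evm f Z) := by
  have key : ∀ f : FreeAlgebra K σ, ∃ D, evm f (blk X B (fun _ => 0) Z) =
      fromBlocks (evm f X) D 0 (evm f Z) := by
    intro f
    induction f using FreeAlgebra.induction with
    | grade0 c =>
      refine ⟨0, ?_⟩
      rw [evm_alg, evm_alg, evm_alg, ← fromBlocks_one, fromBlocks_smul, smul_zero, smul_zero]
    | grade1 i =>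
      refine ⟨B i, ?_⟩
      rw [evm_ι, evm_ι, evm_ι]
      rfl
    | mul f g hf hg =>
      obtain ⟨D, hD⟩ := hf
      obtain ⟨E, hE⟩ := hg
      refine ⟨evm f X * E + D * evm g Z, ?_⟩
      rw [evm_mul, evm_mul, evm_mul, hD, hE, fromBlocks_multiply]
      simp
    | add f g hf hg =>
      obtain ⟨D, hD⟩ := hf
      obtain ⟨E, hE⟩ := hg
      refine ⟨D + E, ?_⟩
      rw [evm_add, evm_add, evm_add, hD, hE, fromBlocks_add, add_zero]
  obtain ⟨D, hD⟩ := key f
  unfold dd
  rw [hD, toBlocks_fromBlocks₁₂]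

theorem dd_mul {k l : ℕ} (f g : FreeAlgebra K σ) (X : σ → Matrix (Fin k) (Fin k) K)
    (Z : σ → Matrix (Fin l) (Fin l) K) (B : σ → Matrix (Fin k) (Fin l) K) :
    dd (f * g) X Z B = evm f X * dd g X Z B + dd f X Z B * evm g Z := by
  have h : dd (f * g) X Z B = (evm (f * g) (blk X B (fun _ => 0) Z)).toBlocks₁₂ := rfl
  rw [h, evm_mul, evm_blk, evm_blk, fromBlocks_multiply, toBlocks_fromBlocks₁₂]

theorem dd_add {k l : ℕ} (f g : FreeAlgebra K σ) (X : σ → Matrix (Fin k) (Fin k) K)
    (Z : σ → Matrix (Fin l) (Fin l) K) (B : σ → Matrix (Fin k) (Fin l) K) :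
    dd (f + g) X Z B = dd f X Z B + dd g X Z B := by
  have h : dd (f + g) X Z B = (evm (f + g) (blk X B (fun _ => 0) Z)).toBlocks₁₂ := rfl
  rw [h, evm_add, evm_blk, evm_blk, fromBlocks_add, toBlocks_fromBlocks₁₂]

theorem dd_ι {k l : ℕ} (i : σ) (X : σ → Matrix (Fin k) (Fin k) K)
    (Z : σ → Matrix (Fin l) (Fin l) K) (B : σ → Matrix (Fin k) (Fin l) K) :
    dd (FreeAlgebra.ι K i) X Z B = B i := by
  unfold dd
  rw [evm_ι]
  rfl

theorem dd_alg {k l : ℕ} (c : K) (X : σ → Matrix (Fin k) (Fin k) K)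
    (Z : σ → Matrix (Fin l) (Fin l) K) (B : σ → Matrix (Fin k) (Fin l) K) :
    dd (algebraMap K (FreeAlgebra K σ) c) X Z B = 0 := by
  unfold dd
  rw [evm_alg, ← fromBlocks_one, fromBlocks_smul, toBlocks_fromBlocks₁₂, smul_zero]

theorem vv_add {k l : ℕ} (A B : Matrix (Fin k) (Fin l) K) : vv (A + B) = vv A + vv B := rfl

theorem vv_zero {k l : ℕ} : vv (0 : Matrix (Fin k) (Fin l) K) = 0 := rfl

end VEC

open VEC in
/-- **Piece VEC.** -/
theorem t_VEC : S_VEC.{u, v} := by
  intro K _ σ f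
  induction f using FreeAlgebra.induction with
  | grade0 c =>
    refine ⟨0, 0, fun k l X Z => ⟨fun B => ?_, fun A C => ?_⟩⟩
    · rw [dd_alg, vv_zero, Finsupp.sum_zero_index]
    · rw [dd_alg, Matrix.mul_zero, trace_zero, Finsupp.sum_zero_index]
  | grade1 i =>
    refine ⟨Finsupp.single i 1, Finsupp.single i 1, fun k l X Z => ⟨fun B => ?_, fun A C => ?_⟩⟩
    · rw [dd_ι, Finsupp.sum_single_index (by rw [evT_zero, zero_mulVec]), evT_one, one_mulVec]
    · rw [dd_ι, Finsupp.sum_single_index (by rw [evT_zero, zero_mulVec, zero_dotProduct]), evT_one,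
        one_mulVec]
      simp only [trace, diag_apply, Matrix.mul_apply, dotProduct, vv, Fintype.sum_prod_type,
        transpose_apply]
  | mul f g hf hg =>
    obtain ⟨pf, qf, hf⟩ := hf
    obtain ⟨pg, qg, hg⟩ := hg
    refine ⟨pg.mapRange (fun r => LL f * r) (mul_zero _) + pf.mapRange (fun r => RR g * r)
      (mul_zero _), qg.mapRange (fun r => r * RR f) (zero_mul _) + qf.mapRange (fun r => r * LL g)
      (zero_mul _), fun k l X Z => ⟨fun B => ?_, fun A C => ?_⟩⟩
    · rw [Finsupp.sum_add_index' (fun i => by rw [evT_zero, zero_mulVec])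
        (fun i a b => by rw [evT_add, add_mulVec]),
        Finsupp.sum_mapRange_index (fun i => by rw [evT_zero, zero_mulVec]),
        Finsupp.sum_mapRange_index (fun i => by rw [evT_zero, zero_mulVec]), dd_mul, vv_add,
        ← evT_LL f X (fun j => (Z j)ᵀ), ← evT_RR g X Z, (hf k l X Z).1 B, (hg k l X Z).1 B]
      simp only [Finsupp.sum, evT_mul, mulVec_sum, mulVec_mulVec]
    · rw [Finsupp.sum_add_index' (fun i => by rw [evT_zero, zero_mulVec, zero_dotProduct])
        (fun i a b => by rw [evT_add, add_mulVec, add_dotProduct]),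
        Finsupp.sum_mapRange_index (fun i => by rw [evT_zero, zero_mulVec, zero_dotProduct]),
        Finsupp.sum_mapRange_index (fun i => by rw [evT_zero, zero_mulVec, zero_dotProduct]),
        dd_mul, Matrix.mul_add, trace_add, ← Matrix.mul_assoc, ← Matrix.mul_assoc,
        Matrix.trace_mul_comm (A * dd f Z X C) (evm g X), ← Matrix.mul_assoc,
        (hg k l X Z).2 (A * evm f Z) C, (hf k l X Z).2 (evm g X * A) C]
      simp only [evT_mul, ← mulVec_mulVec, evT_LL, evT_RR]
  | add f g hf hg =>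
    obtain ⟨pf, qf, hf⟩ := hf
    obtain ⟨pg, qg, hg⟩ := hg
    refine ⟨pf + pg, qf + qg, fun k l X Z => ⟨fun B => ?_, fun A C => ?_⟩⟩
    · rw [Finsupp.sum_add_index' (fun i => by rw [evT_zero, zero_mulVec])
        (fun i a b => by rw [evT_add, add_mulVec]), dd_add, vv_add, (hf k l X Z).1 B,
        (hg k l X Z).1 B]
    · rw [Finsupp.sum_add_index' (fun i => by rw [evT_zero, zero_mulVec, zero_dotProduct])
        (fun i a b => by rw [evT_add, add_mulVec, add_dotProduct]), dd_add, Matrix.mul_add,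
        trace_add, (hf k l X Z).2 A C, (hg k l X Z).2 A C]

end Pool.Agent.K1H41.RD
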